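import Pool.Agent.H72.Cardy.NZ

set_option autoImplicit false
open Polynomial Filter Topology

/-!
# Job CONT of the Cardy project (MP_fe58d8_pr): the homogeneous point by continuity

Both sides are continuous along the curve `z_i (t) = exp (c_i t)`, which is generic for `t > 0`.
-/

namespace Pool.Agent.H72.Cardy

namespace ContAux

variable {q a : ℂ} {Φ : List ℂ → List Bool → ℂ}

/-- evaluation of a list of functions -/
def ev (l : List (ℝ → ℂ)) (t : ℝ) : List ℂ := l.map fun f => f t

lemma ev_length (l : List (ℝ → ℂ)) (t : ℝ) : (ev l t).length = l.length := by simp [ev]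

/-- all entries are continuous -/
def CL (l : List (ℝ → ℂ)) : Prop := ∀ f ∈ l, Continuous f

/-- all entries are nowhere zero -/
def NL (l : List (ℝ → ℂ)) : Prop := ∀ f ∈ l, ∀ t, f t ≠ 0

/-! ### the left-hand side -/

lemma cont_Phi (hΦ : Sol q a Φ) (n : ℕ) (l : List (ℝ → ℂ)) (hl : l.length = 2 * n + 1) (hc : CL l)
    (hn : NL l) (s : List Bool) : Continuous fun t => Φ (ev l t) s := by
  obtain ⟨P, -, hP⟩ := hΦ.poly n s
  set w : ℝ → Fin (2 * n + 1) → ℂ := fun t i => (l.get (Fin.cast hl.symm i)) t with hw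
  have hofFn : ∀ t, List.ofFn (w t) = ev l t := by
    intro t
    apply List.ext_getElem
    · rw [List.length_ofFn, ev_length, hl]
    · intro i h1 h2
      rw [List.getElem_ofFn]
      simp [hw, ev]
  have hw0 : ∀ t i, w t i ≠ 0 := fun t i => hn _ (List.get_mem _ _) t
  have hwc : ∀ i, Continuous fun t => w t i := fun i => hc _ (List.get_mem _ _)
  have hprod : ∀ t, (∏ i, w t i) ^ n ≠ 0 := fun t => pow_ne_zero _ (Finset.prod_ne_zero_iff.2
    fun i _ => hw0 t i)
  have h1 : (fun t => Φ (ev l t) s) = fun t => MvPolynomial.eval (w t) P / (∏ i, w t i) ^ n := by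
    funext t
    have := hP (w t) (hw0 t)
    rw [hofFn t] at this
    rw [← this, mul_div_cancel_left₀ _ (hprod t)]
  rw [h1]
  apply Continuous.div
  · exact (MvPolynomial.continuous_eval P).comp (continuous_pi hwc)
  · exact (continuous_finsetProd _ fun i _ => hwc i).pow n
  · exact hprod

lemma cont_sumC (k : ℕ) (f : ℝ → List Bool → ℂ) (hf : ∀ s, Continuous fun t => f t s) :
    Continuous fun t => sumC k (f t) := by
  induction k generalizing f with
  | zero => exact hf []
  | succ k ih =>
    exact (ih (fun t s => f t (false :: s)) fun s => hf _).add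
      (ih (fun t s => f t (true :: s)) fun s => hf _)

lemma cont_capR (r : ℕ) (V : ℝ → List Bool → ℂ) (s t : List Bool)
    (hf : ∀ s, Continuous fun x => V x s) : Continuous fun x => capR a r (V x) s t := by
  induction r generalizing s with
  | zero => exact hf _
  | succ r ih => exact (continuous_const.mul (ih _)).add (continuous_const.mul (ih _))

/-- the list of functions `b, b⁻¹, …` -/
noncomputable def prsF : List (ℝ → ℂ) → List (ℝ → ℂ)
  | [] => []
  | b :: bs => b :: (fun t => (b t)⁻¹) :: prsF bs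

lemma ev_prsF (l : List (ℝ → ℂ)) (t : ℝ) : ev (prsF l) t = prs (ev l t) := by
  induction l with
  | nil => rfl
  | cons b l ih =>
    show b t :: (b t)⁻¹ :: ev (prsF l) t = b t :: (b t)⁻¹ :: prs (ev l t)
    rw [ih]

lemma length_prsF (l : List (ℝ → ℂ)) : (prsF l).length = 2 * l.length := by
  induction l with
  | nil => rfl
  | cons b l ih => simp [prsF, ih]; ring

lemma CL_prsF {l : List (ℝ → ℂ)} (hc : CL l) (hn : NL l) : CL (prsF l) := by
  induction l with
  | nil => intro f hf; simp [prsF] at hf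
  | cons b l ih =>
    intro f hf
    simp only [prsF, List.mem_cons] at hf
    rcases hf with rfl | rfl | hf
    · exact hc _ (by simp)
    · exact (hc b (by simp)).inv₀ (hn b (by simp))
    · exact ih (fun f hf => hc f (by simp [hf])) (fun f hf => hn f (by simp [hf])) f hf

lemma NL_prsF {l : List (ℝ → ℂ)} (hn : NL l) : NL (prsF l) := by
  induction l with
  | nil => intro f hf; simp [prsF] at hf
  | cons b l ih =>
    intro f hf t
    simp only [prsF, List.mem_cons] at hf
    rcases hf with rfl | rfl | hf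
    · exact hn _ (by simp) t
    · exact inv_ne_zero (hn b (by simp) t)
    · exact ih (fun f hf => hn f (by simp [hf])) f hf t

lemma ev_append (l l' : List (ℝ → ℂ)) (t : ℝ) : ev (l ++ l') t = ev l t ++ ev l' t := by
  simp [ev]

lemma ev_cons (f : ℝ → ℂ) (l : List (ℝ → ℂ)) (t : ℝ) : ev (f :: l) t = f t :: ev l t := rfl

lemma ev_nil (t : ℝ) : ev [] t = [] := rfl

lemma ev_reverse (l : List (ℝ → ℂ)) (t : ℝ) : ev l.reverse t = (ev l t).reverse := by
  simp [ev]

lemma CL.append {l l' : List (ℝ → ℂ)} (h : CL l) (h' : CL l') : CL (l ++ l') := by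
  intro f hf
  rcases List.mem_append.1 hf with h1 | h1
  · exact h f h1
  · exact h' f h1

lemma CL.cons {f : ℝ → ℂ} {l : List (ℝ → ℂ)} (h : Continuous f) (h' : CL l) : CL (f :: l) := by
  intro g hg
  rcases List.mem_cons.1 hg with rfl | h1
  · exact h
  · exact h' g h1

lemma CL.nil : CL [] := fun f hf => by simp at hf

lemma NL.append {l l' : List (ℝ → ℂ)} (h : NL l) (h' : NL l') : NL (l ++ l') := by
  intro f hf
  rcases List.mem_append.1 hf with h1 | h1
  · exact h f h1
  · exact h' f h1

lemma NL.cons {f : ℝ → ℂ} {l : List (ℝ → ℂ)} (h : ∀ t, f t ≠ 0) (h' : NL l) : NL (f :: l) := by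
  intro g hg
  rcases List.mem_cons.1 hg with rfl | h1
  · exact h
  · exact h' g h1

lemma NL.nil : NL [] := fun f hf => by simp at hf

lemma CL.reverse {l : List (ℝ → ℂ)} (h : CL l) : CL l.reverse := fun f hf => h f (by simpa using hf)

lemma NL.reverse {l : List (ℝ → ℂ)} (h : NL l) : NL l.reverse := fun f hf => h f (by simpa using hf)

lemma cont_Nodd (hΦ : Sol q a Φ) (m : ℕ) (z b : List (ℝ → ℂ)) (α d : ℝ → ℂ)
    (hz : z.length = 2 * m + 1) (hzc : CL z) (hzn : NL z) (hbc : CL b) (hbn : NL b)
    (hα : Continuous α) (hαn : ∀ t, α t ≠ 0) (hd : Continuous d) (hdn : ∀ t, d t ≠ 0) :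
    Continuous fun t => Nodd a Φ (ev z t) (α t) (ev b t) (d t) := by
  have h1 : ∀ t, Nodd a Φ (ev z t) (α t) (ev b t) (d t) =
      a * sumC z.length fun s => Φ (ev z.reverse t) ((s.map not).reverse) *
        capR a b.length (Φ (ev (z ++ α :: (prsF b ++ [d])) t)) (s ++ [false]) [false] := by
    intro t
    unfold Nodd
    rw [ev_length, ev_length, ev_reverse, ev_append, ev_cons, ev_append, ev_prsF]
    rfl
  simp only [h1]
  refine continuous_const.mul (cont_sumC _ _ fun s => ?_)
  apply Continuous.mul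
  · exact cont_Phi hΦ m _ (by rw [List.length_reverse, hz]) hzc.reverse hzn.reverse _
  · apply cont_capR
    intro s'
    apply cont_Phi hΦ (m + 1 + b.length)
    · simp only [List.length_append, List.length_cons, length_prsF, hz, List.length_nil]
      ring
    · exact hzc.append (CL.cons hα ((CL_prsF hbc hbn).append (CL.cons hd CL.nil)))
    · exact hzn.append (NL.cons hαn ((NL_prsF hbn).append (NL.cons hdn NL.nil)))

lemma cont_Neven (hΦ : Sol q a Φ) (m : ℕ) (z b : List (ℝ → ℂ)) (v d : ℝ → ℂ)
    (hz : z.length = 2 * m) (hzc : CL z) (hzn : NL z) (hbc : CL b) (hbn : NL b)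
    (hv : Continuous v) (hvn : ∀ t, v t ≠ 0) (hd : Continuous d) (hdn : ∀ t, d t ≠ 0) :
    Continuous fun t => Neven a Φ (ev z t) (v t) (ev b t) (d t) := by
  have h1 : ∀ t, Neven a Φ (ev z t) (v t) (ev b t) (d t) =
      sumC z.length fun s => Φ (ev (v :: z.reverse) t) (false :: (s.map not).reverse) *
        capR a b.length (Φ (ev (z ++ (prsF b ++ [d])) t)) s [false] := by
    intro t
    unfold Neven
    rw [ev_length, ev_length, ev_cons, ev_reverse, ev_append, ev_append, ev_prsF]
    rfl
  simp only [h1]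
  refine cont_sumC _ _ fun s => ?_
  apply Continuous.mul
  · exact cont_Phi hΦ m _ (by rw [List.length_cons, List.length_reverse, hz])
      (CL.cons hv hzc.reverse) (NL.cons hvn hzn.reverse) _
  · apply cont_capR
    intro s'
    apply cont_Phi hΦ (m + b.length)
    · simp only [List.length_append, List.length_cons, length_prsF, hz, List.length_nil]
      ring
    · exact hzc.append ((CL_prsF hbc hbn).append (CL.cons hd CL.nil))
    · exact hzn.append ((NL_prsF hbn).append (NL.cons hdn NL.nil))

/-! ### the right-hand side: polynomials with continuous coefficients -/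

/-- a family of polynomials of bounded degree with continuous coefficients -/
def CP (p : ℝ → ℂ[X]) : Prop :=
  (∃ N, ∀ t, (p t).natDegree ≤ N) ∧ ∀ i, Continuous fun t => (p t).coeff i

lemma CP.const (p : ℂ[X]) : CP fun _ => p := ⟨⟨_, fun _ => le_rfl⟩, fun _ => continuous_const⟩

lemma CP_C {f : ℝ → ℂ} (hf : Continuous f) : CP fun t => C (f t) := by
  refine ⟨⟨0, fun t => by simp⟩, fun i => ?_⟩
  simp only [coeff_C]
  split_ifs
  · exact hf
  · exact continuous_const

lemma CP.add {p p' : ℝ → ℂ[X]} (h : CP p) (h' : CP p') : CP fun t => p t + p' t := by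
  obtain ⟨⟨N, hN⟩, hc⟩ := h
  obtain ⟨⟨N', hN'⟩, hc'⟩ := h'
  refine ⟨⟨max N N', fun t => (natDegree_add_le _ _).trans (max_le_max (hN t) (hN' t))⟩, fun i => ?_⟩
  simp only [coeff_add]
  exact (hc i).add (hc' i)

lemma CP.sub {p p' : ℝ → ℂ[X]} (h : CP p) (h' : CP p') : CP fun t => p t - p' t := by
  obtain ⟨⟨N, hN⟩, hc⟩ := h
  obtain ⟨⟨N', hN'⟩, hc'⟩ := h'
  refine ⟨⟨max N N', fun t => (natDegree_sub_le _ _).trans (max_le_max (hN t) (hN' t))⟩, fun i => ?_⟩
  simp only [coeff_sub]
  exact (hc i).sub (hc' i)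

lemma CP.mul {p p' : ℝ → ℂ[X]} (h : CP p) (h' : CP p') : CP fun t => p t * p' t := by
  obtain ⟨⟨N, hN⟩, hc⟩ := h
  obtain ⟨⟨N', hN'⟩, hc'⟩ := h'
  refine ⟨⟨N + N', fun t => natDegree_mul_le_of_le (hN t) (hN' t)⟩, fun i => ?_⟩
  simp only [coeff_mul]
  exact continuous_finsetSum _ fun x _ => (hc _).mul (hc' _)

lemma CP.sum {ι : Type*} (s : Finset ι) {p : ι → ℝ → ℂ[X]} (h : ∀ i ∈ s, CP (p i)) :
    CP fun t => ∑ i ∈ s, p i t := by
  classical
  induction s using Finset.induction_on with
  | empty => simpa using CP.const 0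
  | insert i s hi ih =>
    simp only [Finset.sum_insert hi]
    exact (h i (Finset.mem_insert_self _ _)).add (ih fun j hj => h j (Finset.mem_insert_of_mem hj))

lemma CP.prod {ι : Type*} (s : Finset ι) {p : ι → ℝ → ℂ[X]} (h : ∀ i ∈ s, CP (p i)) :
    CP fun t => ∏ i ∈ s, p i t := by
  classical
  induction s using Finset.induction_on with
  | empty => simpa using CP.const 1
  | insert i s hi ih =>
    simp only [Finset.prod_insert hi]
    exact (h i (Finset.mem_insert_self _ _)).mul (ih fun j hj => h j (Finset.mem_insert_of_mem hj))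

lemma CP.listProd (l : List (ℝ → ℂ[X])) (h : ∀ p ∈ l, CP p) :
    CP fun t => (l.map fun p => p t).prod := by
  induction l with
  | nil => simpa using CP.const 1
  | cons p l ih =>
    simp only [List.map_cons, List.prod_cons]
    exact (h p (by simp)).mul (ih fun p' hp' => h p' (by simp [hp']))

lemma CP.eval {p : ℝ → ℂ[X]} (h : CP p) {f : ℝ → ℂ} (hf : Continuous f) :
    Continuous fun t => (p t).eval (f t) := by
  obtain ⟨⟨N, hN⟩, hc⟩ := h
  have : (fun t => (p t).eval (f t)) =
      fun t => ∑ i ∈ Finset.range (N + 1), (p t).coeff i * f t ^ i := by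
    funext t
    exact eval_eq_sum_range' (Nat.lt_succ_of_le (hN t)) _
  rw [this]
  exact continuous_finsetSum _ fun i _ => (hc i).mul (hf.pow i)

lemma CP.divX {p : ℝ → ℂ[X]} (h : CP p) {f : ℝ → ℂ} (hf : Continuous f) :
    CP fun t => p t /ₘ (X - C (f t)) := by
  obtain ⟨⟨N, hN⟩, hc⟩ := h
  refine ⟨⟨N, fun t => ?_⟩, fun i => ?_⟩
  · rw [natDegree_divByMonic _ (monic_X_sub_C _)]
    exact (Nat.sub_le _ _).trans (hN t)
  · have : (fun t => (p t /ₘ (X - C (f t))).coeff i) =
        fun t => ∑ j ∈ Finset.Icc (i + 1) N, f t ^ (j - (i + 1)) * (p t).coeff j := by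
      funext t
      rw [coeff_divByMonic_X_sub_C]
      apply Finset.sum_subset
      · intro j hj
        rw [Finset.mem_Icc] at hj ⊢
        exact ⟨hj.1, hj.2.trans (hN t)⟩
      · intro j hj hj'
        rw [Finset.mem_Icc] at hj hj'
        have : (p t).natDegree < j := by
          by_contra hlt
          exact hj' ⟨hj.1, not_lt.1 hlt⟩
        rw [coeff_eq_zero_of_natDegree_lt this, mul_zero]
    rw [this]
    exact continuous_finsetSum _ fun j _ => (hf.pow _).mul (hc j)

lemma cont_dd (l : List (ℝ → ℂ)) (hl : CL l) (p : ℝ → ℂ[X]) (hp : CP p) :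
    Continuous fun t => dd (p t) (ev l t) := by
  induction l generalizing p with
  | nil => exact continuous_const
  | cons f l ih =>
    cases l with
    | nil => exact hp.eval (hl f (by simp))
    | cons g l =>
      exact ih (fun f' hf' => hl f' (by simp at hf' ⊢; tauto)) _ (hp.divX (hl f (by simp)))

lemma CP_quo (l : List (ℝ → ℂ)) (hl : CL l) (p : ℝ → ℂ[X]) (hp : CP p) :
    CP fun t => quo (p t) (ev l t) := by
  induction l generalizing p with
  | nil => exact hp
  | cons f l ih =>
    exact ih (fun f' hf' => hl f' (by simp at hf' ⊢; tauto)) _ (hp.divX (hl f (by simp)))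

lemma ev_take (l : List (ℝ → ℂ)) (t : ℝ) (i : ℕ) : (ev l t).take i = ev (l.take i) t := by
  simp [ev]

lemma CL.take {l : List (ℝ → ℂ)} (h : CL l) (i : ℕ) : CL (l.take i) := fun f hf =>
  h f (List.mem_of_mem_take hf)

lemma Alt_eq (f : ℕ → ℂ[X]) (xs : List ℂ) (n : ℕ) (h : xs.length = n) :
    Alt f xs = (Matrix.of fun i j : Fin n => dd (f j) (xs.take (i + 1))).det := by
  subst h
  rfl

lemma cont_Alt (l : List (ℝ → ℂ)) (hl : CL l) (f : ℝ → ℕ → ℂ[X]) (hf : ∀ j, CP fun t => f t j) :
    Continuous fun t => Alt (f t) (ev l t) := by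
  have : (fun t => Alt (f t) (ev l t)) = fun t =>
      (Matrix.of fun i j : Fin l.length => dd (f t j) (ev (l.take (i + 1)) t)).det := by
    funext t
    rw [Alt_eq _ _ l.length (ev_length l t)]
    simp only [ev_take]
  rw [this]
  apply Continuous.matrix_det
  apply continuous_matrix
  intro i j
  exact cont_dd _ (hl.take _) _ (hf j)

lemma cont_D (l : List (ℝ → ℂ)) (hl : CL l) (h : ℝ → ℂ[X]) (hh : CP h) :
    Continuous fun t => D (h t) (ev l t) := by
  unfold D
  simp only [ev_length]
  apply cont_Alt l hl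
  intro j
  by_cases hj : j + 1 = l.length
  · simp only [hj, if_true]; exact hh
  · simp only [hj, if_false]; exact CP.const _

lemma Sx_eq (xs : List ℂ) (n : ℕ) (h : xs.length = n) :
    Sx xs = (Matrix.of fun i j : Fin (n + 1) =>
      if (i : ℕ) < n then C (dd (pb j) (xs.take (i + 1))) else quo (pb j) xs).det := by
  subst h
  rfl

lemma CP_Sx (l : List (ℝ → ℂ)) (hl : CL l) : CP fun t => Sx (ev l t) := by
  have : (fun t => Sx (ev l t)) = fun t =>
      ∑ σ : Equiv.Perm (Fin (l.length + 1)), C ((Equiv.Perm.sign σ : ℤ) : ℂ) *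
        ∏ i : Fin (l.length + 1), (if ((σ i : Fin (l.length + 1)) : ℕ) < l.length then
          C (dd (pb i) (ev (l.take ((σ i : ℕ) + 1)) t)) else quo (pb i) (ev l t)) := by
    funext t
    rw [Sx_eq _ l.length (ev_length l t), Matrix.det_apply']
    apply Finset.sum_congr rfl
    intro σ _
    have e1 : (((Equiv.Perm.sign σ : ℤ) : ℂ[X])) = C ((Equiv.Perm.sign σ : ℤ) : ℂ) := by simp
    rw [e1]
    congr 1
    apply Finset.prod_congr rfl
    intro i _
    simp only [Matrix.of_apply, ev_take]
  rw [this]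
  apply CP.sum
  intro σ _
  apply (CP.const _).mul
  apply CP.prod
  intro i _
  split_ifs with h
  · exact CP_C (cont_dd _ (hl.take _) _ (CP.const _))
  · exact CP_quo _ hl _ (CP.const _)

lemma CP_prodT (l : List (ℝ → ℂ)) (hl : CL l) : CP fun t => prodT (ev l t) := by
  have : (fun t => prodT (ev l t)) =
      fun t => ((l.map fun f => fun t => T - C (T.eval (f t))).map fun p => p t).prod := by
    funext t
    unfold prodT ev
    rw [List.map_map, List.map_map]
    rfl
  rw [this]
  apply CP.listProd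
  intro p hp
  rw [List.mem_map] at hp
  obtain ⟨f, hf, rfl⟩ := hp
  exact (CP.const _).sub (CP_C ((CP.const T).eval (hl f hf)))

lemma CP_prodX (l : List (ℝ → ℂ)) (hl : CL l) : CP fun t => prodX (ev l t) := by
  have : (fun t => prodX (ev l t)) =
      fun t => ((l.map fun f => fun t => X - C (f t)).map fun p => p t).prod := by
    funext t
    unfold prodX ev
    rw [List.map_map, List.map_map]
    rfl
  rw [this]
  apply CP.listProd
  intro p hp
  rw [List.mem_map] at hp
  obtain ⟨f, hf, rfl⟩ := hp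
  exact (CP.const _).sub (CP_C (hl f hf))

/-- `X'` of a list of functions -/
noncomputable def mX (l : List (ℝ → ℂ)) : List (ℝ → ℂ) := l.map fun f => fun t => X' (f t)

lemma ev_mX (l : List (ℝ → ℂ)) (t : ℝ) : ev (mX l) t = (ev l t).map X' := by
  unfold ev mX
  rw [List.map_map, List.map_map]
  rfl

lemma cont_X' {f : ℝ → ℂ} (hf : Continuous f) (hn : ∀ t, f t ≠ 0) : Continuous fun t => X' (f t) :=
  hf.add (hf.inv₀ hn)

lemma CL_mX {l : List (ℝ → ℂ)} (hc : CL l) (hn : NL l) : CL (mX l) := by
  intro g hg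
  unfold mX at hg
  rw [List.mem_map] at hg
  obtain ⟨f, hf, rfl⟩ := hg
  exact cont_X' (hc f hf) (hn f hf)

/-- doubling a list of functions -/
def dblF : List (ℝ → ℂ) → List (ℝ → ℂ)
  | [] => []
  | x :: xs => x :: x :: dblF xs

lemma ev_dblF (l : List (ℝ → ℂ)) (t : ℝ) : ev (dblF l) t = dbl (ev l t) := by
  induction l with
  | nil => rfl
  | cons b l ih =>
    show b t :: b t :: ev (dblF l) t = b t :: b t :: dbl (ev l t)
    rw [ih]

lemma CL_dblF {l : List (ℝ → ℂ)} (hc : CL l) : CL (dblF l) := by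
  induction l with
  | nil => exact CL.nil
  | cons b l ih =>
    exact CL.cons (hc b (by simp)) (CL.cons (hc b (by simp)) (ih fun f hf => hc f (by simp [hf])))

lemma cont_Rodd (q : ℂ) (hq : q ≠ 0) (z b : List (ℝ → ℂ)) (α d : ℝ → ℂ) (hzc : CL z) (hzn : NL z)
    (hbc : CL b) (hbn : NL b) (hα : Continuous α) (hαn : ∀ t, α t ≠ 0) (hd : Continuous d)
    (hdn : ∀ t, d t ≠ 0) :
    Continuous fun t => Rodd q (ev z t) (α t) (ev b t) (d t) := by
  have hαX := cont_X' hα hαn
  have hαX' : Continuous fun t => X' (q * α t) :=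
    cont_X' (continuous_const.mul hα) fun t => mul_ne_zero hq (hαn t)
  have hdX := cont_X' hd hdn
  have h1 : ∀ t, Rodd q (ev z t) (α t) (ev b t) (d t) =
      D ((X - C (X' (α t))) * (X - C (X' (q * α t))) * prodT (ev (mX b) t) * prodX (ev (mX z) t) *
        Sx (ev (mX z) t)) (ev (mX z ++ (fun t => X' (α t)) :: (dblF (mX b) ++ [fun t => X' (d t)])) t) := by
    intro t
    unfold Rodd
    rw [ev_append, ev_cons, ev_append, ev_dblF, ev_mX, ev_mX]
    rfl
  simp only [h1]
  apply cont_D
  · exact (CL_mX hzc hzn).append (CL.cons hαX ((CL_dblF (CL_mX hbc hbn)).append (CL.cons hdX CL.nil)))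
  · apply CP.mul
    · apply CP.mul
      · apply CP.mul
        · exact ((CP.const _).sub (CP_C hαX)).mul ((CP.const _).sub (CP_C hαX'))
        · exact CP_prodT _ (CL_mX hbc hbn)
      · exact CP_prodX _ (CL_mX hzc hzn)
    · exact CP_Sx _ (CL_mX hzc hzn)

lemma cont_Reven (z b : List (ℝ → ℂ)) (v d : ℝ → ℂ) (hzc : CL z) (hzn : NL z)
    (hbc : CL b) (hbn : NL b) (hv : Continuous v) (hvn : ∀ t, v t ≠ 0) (hd : Continuous d)
    (hdn : ∀ t, d t ≠ 0) :
    Continuous fun t => Reven (ev z t) (v t) (ev b t) (d t) := by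
  have hvX := cont_X' hv hvn
  have hdX := cont_X' hd hdn
  have h1 : ∀ t, Reven (ev z t) (v t) (ev b t) (d t) =
      D (prodT (ev (mX b) t) * prodX (ev (mX z) t) * Sx (ev (mX z ++ [fun t => X' (v t)]) t))
        (ev (mX z ++ (dblF (mX b) ++ [fun t => X' (d t)])) t) := by
    intro t
    unfold Reven
    rw [ev_append, ev_append, ev_append, ev_dblF, ev_mX, ev_mX]
    rfl
  simp only [h1]
  apply cont_D
  · exact (CL_mX hzc hzn).append ((CL_dblF (CL_mX hbc hbn)).append (CL.cons hdX CL.nil))
  · apply CP.mul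
    · apply CP.mul
      · exact CP_prodT _ (CL_mX hbc hbn)
      · exact CP_prodX _ (CL_mX hzc hzn)
    · exact CP_Sx _ ((CL_mX hzc hzn).append (CL.cons hvX CL.nil))

/-! ### the curve -/

/-- the curve -/
noncomputable def gc (i : ℕ) (t : ℝ) : ℂ := (Real.exp ((i + 1) * t) : ℝ)

lemma gc_cont (i : ℕ) : Continuous (gc i) := by
  unfold gc
  fun_prop

lemma gc_ne (i : ℕ) (t : ℝ) : gc i t ≠ 0 := by
  unfold gc
  exact_mod_cast (Real.exp_pos _).ne'

lemma gc_zero (i : ℕ) : gc i 0 = 1 := by simp [gc]

lemma gc_gen (N : ℕ) (t : ℝ) (ht : 0 < t) : Gen (ev ((List.range N).map gc) t) := by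
  have hpow : ∀ i k : ℕ, gc i t ^ k = ((Real.exp (k * ((i + 1) * t)) : ℝ) : ℂ) := by
    intro i k
    unfold gc
    rw [← Complex.ofReal_pow, ← Real.exp_nat_mul]
  refine ⟨?_, ?_⟩
  · intro x hx
    simp only [ev, List.map_map, List.mem_map, List.mem_range, Function.comp_apply] at hx
    obtain ⟨i, -, rfl⟩ := hx
    refine ⟨gc_ne i t, ?_⟩
    rw [hpow]
    intro h
    have h1 : Real.exp ((6 : ℕ) * ((i + 1) * t)) = 1 := by exact_mod_cast h
    rw [Real.exp_eq_one_iff] at h1
    have : (0 : ℝ) < (6 : ℕ) * ((i + 1) * t) := by positivity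
    linarith
  · unfold ev
    rw [List.map_map, List.pairwise_map]
    refine List.Pairwise.imp ?_ (List.pairwise_lt_range)
    intro i j hij
    simp only [Function.comp_apply, hpow]
    have hij' : (i : ℝ) < j := by exact_mod_cast hij
    constructor
    · intro h
      have h1 : Real.exp ((3 : ℕ) * ((i + 1) * t)) = Real.exp ((3 : ℕ) * ((j + 1) * t)) := by
        exact_mod_cast h
      rw [Real.exp_eq_exp] at h1
      push_cast at h1
      nlinarith [mul_pos (sub_pos.2 hij') ht]
    · intro h
      rw [← Complex.ofReal_mul, ← Real.exp_add] at h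
      have h1 : Real.exp ((3 : ℕ) * ((i + 1) * t) + (3 : ℕ) * ((j + 1) * t)) = 1 := by
        exact_mod_cast h
      rw [Real.exp_eq_one_iff] at h1
      have : (0 : ℝ) < (3 : ℕ) * ((i + 1) * t) + (3 : ℕ) * ((j + 1) * t) := by positivity
      linarith

/-- two continuous functions which agree on `t > 0` agree at `0` -/
lemma eq_at_zero {f g : ℝ → ℂ} (hf : Continuous f) (hg : Continuous g) (h : ∀ t, 0 < t → f t = g t) :
    f 0 = g 0 := by
  have h1 : Tendsto f (𝓝[>] 0) (𝓝 (f 0)) := hf.continuousAt.tendsto.mono_left nhdsWithin_le_nhds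
  have h2 : Tendsto g (𝓝[>] 0) (𝓝 (g 0)) := hg.continuousAt.tendsto.mono_left nhdsWithin_le_nhds
  have h3 : f =ᶠ[𝓝[>] 0] g := by
    filter_upwards [self_mem_nhdsWithin] with t ht
    exact h t ht
  exact tendsto_nhds_unique (h1.congr' h3) h2

lemma T_eval_two : T.eval (2 : ℂ) = 2 := by
  unfold T
  simp
  norm_num

lemma prodT_replicate (r : ℕ) : prodT (List.replicate r 2) = (T - C 2) ^ r := by
  unfold prodT
  rw [List.map_replicate, List.prod_replicate, T_eval_two]

lemma prodX_replicate (r : ℕ) : prodX (List.replicate r 2) = (X - C 2) ^ r := by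
  unfold prodX
  rw [List.map_replicate, List.prod_replicate]

lemma dbl_replicate (r : ℕ) (x : ℂ) : dbl (List.replicate r x) = List.replicate (2 * r) x := by
  induction r with
  | zero => rfl
  | succ r ih =>
    rw [List.replicate_succ, show 2 * (r + 1) = 2 * r + 1 + 1 by ring, List.replicate_succ,
      List.replicate_succ]
    show x :: x :: dbl (List.replicate r x) = _
    rw [ih]

lemma X'_one : X' 1 = 2 := by unfold X'; norm_num

/-- the `z`, `b`, `d` functions -/
lemma ev_curve (N : ℕ) (f : ℕ → ℕ) : ev ((List.range N).map fun i => gc (f i)) 0 =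
    List.replicate N 1 := by
  unfold ev
  rw [List.map_map]
  have : ((fun f : ℝ → ℂ => f 0) ∘ fun i => gc (f i)) = fun _ => (1 : ℂ) := by
    funext i
    exact gc_zero _
  rw [this, List.map_const', List.length_range]

lemma curve_split (m r : ℕ) : (List.range m).map gc ++ (List.range r).map (fun i => gc (m + i)) ++
    [gc (m + r)] = (List.range (m + r + 1)).map gc := by
  rw [List.range_succ, List.map_append, List.range_add, List.map_append, List.map_map]
  rfl

end ContAux

open ContAux

/-- The odd case at the homogeneous point, from the generic equality. -/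
theorem Nodd_one_of {q a : ℂ} {Φ : List ℂ → List Bool → ℂ} (hq : q ^ 2 + q + 1 = 0)
    (hΦ : Sol q a Φ)
    (heq : ∀ (z : List ℂ) (α : ℂ) (b : List ℂ) (d : ℂ), Odd z.length → Gen (z ++ b ++ [d]) →
      α ≠ 0 → Nodd a Φ z α b d = Rodd q z α b d) (m r : ℕ) :
    Nodd a Φ (List.replicate (2 * m + 1) 1) 1 (List.replicate r 1) 1 =
      D ((X - C 2) * (X + 1) * (T - C 2) ^ r * (X - C 2) ^ (2 * m + 1) *
        Sx (List.replicate (2 * m + 1) 2)) (List.replicate (2 * m + 2 * r + 3) 2) := by
  have hq0 : q ≠ 0 := by rintro rfl; norm_num at hq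
  set z : List (ℝ → ℂ) := (List.range (2 * m + 1)).map gc with hz
  set b : List (ℝ → ℂ) := (List.range r).map (fun i => gc (2 * m + 1 + i)) with hb
  have hzc : CL z := by
    intro f hf
    rw [hz, List.mem_map] at hf
    obtain ⟨i, -, rfl⟩ := hf
    exact gc_cont i
  have hzn : NL z := by
    intro f hf
    rw [hz, List.mem_map] at hf
    obtain ⟨i, -, rfl⟩ := hf
    exact gc_ne i
  have hbc : CL b := by
    intro f hf
    rw [hb, List.mem_map] at hf
    obtain ⟨i, -, rfl⟩ := hf
    exact gc_cont _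
  have hbn : NL b := by
    intro f hf
    rw [hb, List.mem_map] at hf
    obtain ⟨i, -, rfl⟩ := hf
    exact gc_ne _
  have hzl : z.length = 2 * m + 1 := by simp [hz]
  have h1 := cont_Nodd hΦ m z b (fun _ => 1) (gc (2 * m + 1 + r)) hzl hzc hzn hbc hbn
    continuous_const (fun _ => one_ne_zero) (gc_cont _) (gc_ne _)
  have h2 := cont_Rodd q hq0 z b (fun _ => 1) (gc (2 * m + 1 + r)) hzc hzn hbc hbn
    continuous_const (fun _ => one_ne_zero) (gc_cont _) (gc_ne _)
  have h3 := eq_at_zero h1 h2 (by
    intro t ht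
    apply heq
    · rw [ev_length, hzl]; exact ⟨m, by ring⟩
    · have h4 := gc_gen (2 * m + 1 + r + 1) t ht
      rw [← curve_split, ← hz, ← hb, ev_append, ev_append] at h4
      exact h4
    · exact one_ne_zero)
  have ez : ev z 0 = List.replicate (2 * m + 1) 1 := ev_curve _ (fun i => i)
  have eb : ev b 0 = List.replicate r 1 := ev_curve _ (fun i => 2 * m + 1 + i)
  simp only [ez, eb, gc_zero] at h3
  rw [h3]
  unfold Rodd
  rw [List.map_replicate, List.map_replicate, X'_one, prodT_replicate, prodX_replicate,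
    dbl_replicate, mul_one]
  have e1 : X' q = -1 := by
    unfold X'
    have h3 : q⁻¹ = -1 - q := by
      field_simp
      linear_combination hq
    rw [h3]; ring
  have e2 : (X : ℂ[X]) - C (X' q) = X + 1 := by rw [e1]; simp
  have e3 : List.replicate (2 * m + 1) (2 : ℂ) ++ 2 :: (List.replicate (2 * r) 2 ++ [2]) =
      List.replicate (2 * m + 2 * r + 3) 2 := by
    have : ([2] : List ℂ) = List.replicate 1 2 := rfl
    rw [this, List.replicate_append_replicate, ← List.replicate_succ,
      List.replicate_append_replicate]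
    congr 1
    ring
  rw [e2, e3]

/-- The even case without glued lines at the homogeneous point, from the generic equality. -/
theorem Neven_one_of {q a : ℂ} {Φ : List ℂ → List Bool → ℂ} (hΦ : Sol q a Φ)
    (heq : ∀ (v : ℂ) (b : List ℂ) (d : ℂ), Gen ([] ++ b ++ [d]) → v ≠ 0 →
      Neven a Φ [] v b d = S (dbl (b.map X') ++ [X' d])) (n : ℕ) :
    Neven a Φ [] 1 (List.replicate n 1) 1 = S (List.replicate (2 * n + 1) 2) := by
  set b : List (ℝ → ℂ) := (List.range n).map (fun i => gc (0 + i)) with hb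
  have hbc : CL b := by
    intro f hf
    rw [hb, List.mem_map] at hf
    obtain ⟨i, -, rfl⟩ := hf
    exact gc_cont _
  have hbn : NL b := by
    intro f hf
    rw [hb, List.mem_map] at hf
    obtain ⟨i, -, rfl⟩ := hf
    exact gc_ne _
  have h1 := cont_Neven hΦ 0 [] b (fun _ => 1) (gc (0 + n)) rfl CL.nil NL.nil hbc hbn
    continuous_const (fun _ => one_ne_zero) (gc_cont _) (gc_ne _)
  have h2 : Continuous fun t => S (dbl ((ev b t).map X') ++ [X' (gc (0 + n) t)]) := by
    have h5 : ∀ t, S (dbl ((ev b t).map X') ++ [X' (gc (0 + n) t)]) =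
        Alt pb (ev (dblF (mX b) ++ [fun t => X' (gc (0 + n) t)]) t) := by
      intro t
      rw [ev_append, ev_dblF, ev_mX]
      rfl
    simp only [h5]
    apply cont_Alt _ _ (fun _ => pb) (fun j => CP.const _)
    exact (CL_dblF (CL_mX hbc hbn)).append (CL.cons (cont_X' (gc_cont _) (gc_ne _)) CL.nil)
  have h3 := eq_at_zero h1 h2 (by
    intro t ht
    apply heq
    · have h4 := gc_gen (0 + n + 1) t ht
      rw [← curve_split, ← hb, ev_append, ev_append] at h4
      exact h4
    · exact one_ne_zero)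
  have eb : ev b 0 = List.replicate n 1 := ev_curve _ (fun i => 0 + i)
  simp only [eb, gc_zero, ev_nil] at h3
  rw [h3, List.map_replicate, X'_one, dbl_replicate]
  congr 1
  rw [show ([2] : List ℂ) = List.replicate 1 2 from rfl, List.replicate_append_replicate]

end Pool.Agent.H72.Cardy
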