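import Mathlib

set_option autoImplicit false

/-!
# L-strip: abstract interpolation / uniqueness theorem

Two families `No`, `Ne` of functions satisfying the same recursions and degree bounds agree at all
generic parameters.  `No X a B g`: `X` common lines (odd number), `a` corner line, `B` the pairs
`b, b⁻¹`, `g` the last line.  `Ne X v B g`: `X` common lines (even number), `v` the extra line.
-/

namespace Pool.Agent.H1.LStrip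

/-- `c u = u + 1/u` -/
noncomputable def c (u : ℂ) : ℂ := u + u⁻¹

/-- `tau u = u ^ 3 + 1 / u ^ 3` -/
noncomputable def tau (u : ℂ) : ℂ := u ^ 3 + (u ^ 3)⁻¹

/-- generic lists of parameters -/
def Gen (T : List ℂ) : Prop :=
  (∀ t ∈ T, t ≠ 0 ∧ tau t ≠ 2 ∧ tau t ≠ -2) ∧ (T.map tau).Nodup

/-- all entries nonzero -/
def NZ (T : List ℂ) : Prop := ∀ t ∈ T, t ≠ 0

/-- product of `c t - y` over the list -/
noncomputable def pr (T : List ℂ) (y : ℂ) : ℂ := (T.map fun t => c t - y).prod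

/-- The interface: symmetries, degree bounds, recursions. -/
structure Facts (om : ℂ) (No Ne : List ℂ → ℂ → List ℂ → ℂ → ℂ) : Prop where
  permX : ∀ X X' a B g, X.Perm X' → Gen X → NZ B → a ≠ 0 → g ≠ 0 → No X a B g = No X' a B g
  permB : ∀ X a B B' g, B.Perm B' → NZ X → Gen B → a ≠ 0 → g ≠ 0 → No X a B g = No X a B' g
  evX : ∀ x X a B g, x ≠ 0 → NZ X → NZ B → a ≠ 0 → g ≠ 0 → No (x⁻¹ :: X) a B g = No (x :: X) a B g
  evB : ∀ X a b B g, b ≠ 0 → NZ X → NZ B → a ≠ 0 → g ≠ 0 → No X a (b⁻¹ :: B) g = No X a (b :: B) g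
  evg : ∀ X a B g, NZ X → NZ B → a ≠ 0 → g ≠ 0 → No X a B g⁻¹ = No X a B g
  permX' : ∀ X X' v B g, X.Perm X' → Gen X → NZ B → v ≠ 0 → g ≠ 0 → Ne X v B g = Ne X' v B g
  permB' : ∀ v B B' g, B.Perm B' → Gen B → v ≠ 0 → g ≠ 0 → Ne [] v B g = Ne [] v B' g
  evX' : ∀ x X v B g, x ≠ 0 → NZ X → NZ B → v ≠ 0 → g ≠ 0 → Ne (x⁻¹ :: X) v B g = Ne (x :: X) v B g
  evB' : ∀ v b B g, b ≠ 0 → NZ B → v ≠ 0 → g ≠ 0 → Ne [] v (b⁻¹ :: B) g = Ne [] v (b :: B) g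
  evv' : ∀ X v B g, NZ X → NZ B → v ≠ 0 → g ≠ 0 → Ne X v⁻¹ B g = Ne X v B g
  evg' : ∀ v B g, NZ B → v ≠ 0 → g ≠ 0 → Ne [] v B g⁻¹ = Ne [] v B g
  degA : ∀ X B g, Odd X.length → NZ X → NZ B → g ≠ 0 → ∃ P : Polynomial ℂ,
    P.natDegree ≤ X.length + 2 * B.length + 1 ∧
    ∀ a, a ≠ 0 → a ^ ((X.length + 1) / 2 + B.length) * No X a B g = P.eval a
  degG : ∀ x a B, x ≠ 0 → NZ B → a ≠ 0 → ∃ P : Polynomial ℂ,
    P.natDegree ≤ B.length + 1 ∧ ∀ g, g ≠ 0 → No [x] a B g = P.eval (c g)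
  degB : ∀ x a g, x ≠ 0 → a ≠ 0 → g ≠ 0 → ∃ P : Polynomial ℂ,
    P.natDegree ≤ 4 ∧ ∀ b, b ≠ 0 → No [x] a [b] g = P.eval (c b)
  degV : ∀ X B g, Even X.length → NZ X → NZ B → g ≠ 0 → ∃ P : Polynomial ℂ,
    P.natDegree ≤ X.length / 2 ∧ ∀ v, v ≠ 0 → Ne X v B g = P.eval (c v)
  degG' : ∀ v B, NZ B → v ≠ 0 → ∃ P : Polynomial ℂ,
    P.natDegree ≤ B.length ∧ ∀ g, g ≠ 0 → Ne [] v B g = P.eval (c g)
  E1 : ∀ x X B g, Even X.length → Gen (x :: X) → NZ B → g ≠ 0 →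
    No (x :: X) (om * x) B g = pr (X ++ B ++ B ++ [g]) (c (om ^ 2 * x)) * Ne X x B g
  E2 : ∀ x X B g, Odd X.length → Gen (x :: X) → NZ B → g ≠ 0 →
    Ne (x :: X) (x / om) B g = pr X (c (om * x)) * No X x B g
  E3 : ∀ X b B g, Odd X.length → b ≠ 0 → NZ X → NZ B → g ≠ 0 →
    No X (b / om) (b :: B) g = pr (X ++ [b] ++ B ++ B ++ [g]) (c (om * b)) * No X b⁻¹ B g
  E4 : ∀ x a b B, x ≠ 0 → a ≠ 0 → Gen (b :: B) →
    No [x] a (b :: B) (om * b) = pr ([x, a, b] ++ B ++ B) (c (b / om)) * No [x] a B b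
  E4' : ∀ v b B, v ≠ 0 → Gen (b :: B) →
    Ne [] v (b :: B) (om * b) = pr ([b] ++ B ++ B) (c (b / om)) * Ne [] v B b
  E5 : ∀ x a g (s : ℂ), s = om ∨ s = -om → x ≠ 0 → a ≠ 0 → g ≠ 0 →
    No [x] a [s] g = pr [x, a, g] (c (om ^ 2 * s)) * No [x] a [] g
  base : ∀ x a g, x ≠ 0 → a ≠ 0 → g ≠ 0 → No [x] a [] g = c g - c (om * a)
  base' : ∀ v g, v ≠ 0 → g ≠ 0 → Ne [] v [] g = 1

end Pool.Agent.H1.LStrip
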