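import Pool.Agent.H1.LStrip.Unique
import Pool.Agent.H72.Cardy.GenNZ

set_option autoImplicit false

/-!
# L-strip: `Nodd = Rodd`, `Neven = Reven` from the statements of the specification

`NSide` / `RSide` collect the symmetries, recursions and degree bounds of the two sides.
-/

open Polynomial

namespace Pool.Agent.H1.LStrip

open Pool.Agent.H72.Cardy (X' dbl Nodd Neven Rodd Reven)

/-- the statements about the left-hand side -/
structure NSide (q : ℂ) (No Ne : List ℂ → ℂ → List ℂ → ℂ → ℂ) : Prop where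
  odd_swap : ∀ (l₁ : List ℂ) (x y : ℂ) (l₂ : List ℂ) (α : ℂ) (b : List ℂ) (d : ℂ),
    NZ (l₁ ++ x :: y :: l₂ ++ b ++ [α, d]) → x ^ 3 ≠ y ^ 3 →
    No (l₁ ++ y :: x :: l₂) α b d = No (l₁ ++ x :: y :: l₂) α b d
  odd_even : ∀ (x : ℂ) (l : List ℂ) (α : ℂ) (b : List ℂ) (d : ℂ), NZ (x :: l ++ b ++ [α, d]) →
    No (x⁻¹ :: l) α b d = No (x :: l) α b d
  odd_binv : ∀ (z : List ℂ) (α : ℂ) (b₁ : List ℂ) (x : ℂ) (b₂ : List ℂ) (d : ℂ),
    NZ (z ++ b₁ ++ x :: b₂ ++ [α, d]) → No z α (b₁ ++ x⁻¹ :: b₂) d = No z α (b₁ ++ x :: b₂) d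
  odd_bswap : ∀ (z : List ℂ) (α : ℂ) (b₁ : List ℂ) (x y : ℂ) (b₂ : List ℂ) (d : ℂ),
    NZ (z ++ b₁ ++ x :: y :: b₂ ++ [α, d]) → x ^ 3 ≠ y ^ 3 → x ^ 3 * y ^ 3 ≠ 1 →
    No z α (b₁ ++ y :: x :: b₂) d = No z α (b₁ ++ x :: y :: b₂) d
  odd_deven : ∀ (z : List ℂ) (α : ℂ) (b : List ℂ) (d : ℂ), NZ (z ++ b ++ [α, d]) →
    No z α b d⁻¹ = No z α b d
  even_swap : ∀ (l₁ : List ℂ) (x y : ℂ) (l₂ : List ℂ) (v : ℂ) (b : List ℂ) (d : ℂ),
    NZ (l₁ ++ x :: y :: l₂ ++ b ++ [v, d]) → x ^ 3 ≠ y ^ 3 →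
    Ne (l₁ ++ y :: x :: l₂) v b d = Ne (l₁ ++ x :: y :: l₂) v b d
  even_even : ∀ (x : ℂ) (l : List ℂ) (v : ℂ) (b : List ℂ) (d : ℂ), NZ (x :: l ++ b ++ [v, d]) →
    Ne (x⁻¹ :: l) v b d = Ne (x :: l) v b d
  even_veven : ∀ (z : List ℂ) (v : ℂ) (b : List ℂ) (d : ℂ), NZ (z ++ b ++ [v, d]) →
    Ne z v⁻¹ b d = Ne z v b d
  even_binv : ∀ (z : List ℂ) (v : ℂ) (b₁ : List ℂ) (x : ℂ) (b₂ : List ℂ) (d : ℂ),
    NZ (z ++ b₁ ++ x :: b₂ ++ [v, d]) → Ne z v (b₁ ++ x⁻¹ :: b₂) d = Ne z v (b₁ ++ x :: b₂) d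
  even_bswap : ∀ (z : List ℂ) (v : ℂ) (b₁ : List ℂ) (x y : ℂ) (b₂ : List ℂ) (d : ℂ),
    NZ (z ++ b₁ ++ x :: y :: b₂ ++ [v, d]) → x ^ 3 ≠ y ^ 3 → x ^ 3 * y ^ 3 ≠ 1 →
    Ne z v (b₁ ++ y :: x :: b₂) d = Ne z v (b₁ ++ x :: y :: b₂) d
  even_deven : ∀ (z : List ℂ) (v : ℂ) (b : List ℂ) (d : ℂ), NZ (z ++ b ++ [v, d]) →
    Ne z v b d⁻¹ = Ne z v b d
  odd_i : ∀ (z : List ℂ) (x : ℂ) (b : List ℂ) (d : ℂ), NZ (z ++ b ++ [x, d]) →
    No (z ++ [x]) (q * x) b d =
      ((z.map X' ++ (dbl (b.map X') ++ [X' d])).map fun t => t - X' (q⁻¹ * x)).prod *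
        Ne z x b d
  odd_ii : ∀ (z : List ℂ) (α : ℂ) (b : List ℂ) (d : ℂ), NZ (z ++ b ++ [α, d]) →
    No z α ((q * α) :: b) d =
      ((z.map X' ++ (X' (q * α) :: (dbl (b.map X') ++ [X' d]))).map
        fun t => t - X' (q⁻¹ * α)).prod * No z (q * α)⁻¹ b d
  even_iii : ∀ (z : List ℂ) (x : ℂ) (b : List ℂ) (d : ℂ), NZ (z ++ b ++ [x, d]) →
    Ne (z ++ [x]) (q⁻¹ * x) b d =
      ((z.map X').map fun t => t - X' (q * x)).prod * No z x b d
  odd_v : ∀ (z : List ℂ) (α : ℂ) (b : List ℂ) (x : ℂ), NZ (z ++ b ++ [α, x]) →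
    No z α (b ++ [x]) (q * x⁻¹) =
      ((z.map X' ++ (X' α :: (dbl (b.map X') ++ [X' x]))).map
        fun t => t - X' (q⁻¹ * x⁻¹)).prod * No z α b x
  even_v : ∀ (z : List ℂ) (v : ℂ) (b : List ℂ) (x : ℂ), NZ (z ++ b ++ [v, x]) →
    Ne z v (b ++ [x]) (q * x⁻¹) =
      ((z.map X' ++ (dbl (b.map X') ++ [X' x])).map
        fun t => t - X' (q⁻¹ * x⁻¹)).prod * Ne z v b x
  odd_vi : ∀ (z : List ℂ) (α : ℂ) (b : List ℂ) (x d : ℂ), NZ (z ++ b ++ [α, x, d]) →
    x⁻¹ = q * x → No z α (b ++ [x]) d =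
      ((z.map X' ++ (X' α :: (dbl (b.map X') ++ [X' d]))).map
        fun t => t - X' (q⁻¹ * x)).prod * No z α b d
  odd_base : ∀ (z α d : ℂ), NZ [z, α, d] → No [z] α [] d = X' d - X' (q * α)
  even_base : ∀ (v d : ℂ), NZ [v, d] → Ne [] v [] d = 1
  odd_degα : ∀ (n : ℕ) (z b : List ℂ) (d : ℂ), NZ (z ++ b ++ [d]) →
    z.length + 2 * b.length + 1 = 2 * n →
    ∃ P : ℂ[X], P.natDegree ≤ 2 * n ∧ ∀ α, α ≠ 0 → α ^ n * No z α b d = P.eval α
  odd_degd : ∀ (n : ℕ) (z b : List ℂ) (α : ℂ), NZ (z ++ b ++ [α]) →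
    z.length + 2 * b.length + 1 = 2 * n →
    ∃ P : ℂ[X], P.natDegree ≤ 2 * n ∧ ∀ d, d ≠ 0 → d ^ n * No z α b d = P.eval d
  odd_degb : ∀ (z α d : ℂ), NZ [z, α, d] →
    ∃ P : ℂ[X], P.natDegree ≤ 8 ∧ ∀ x, x ≠ 0 → x ^ 4 * No [z] α [x] d = P.eval x
  even_degv : ∀ (m : ℕ) (z b : List ℂ) (d : ℂ), NZ (z ++ b ++ [d]) → z.length = 2 * m →
    ∃ P : ℂ[X], P.natDegree ≤ 2 * m ∧ ∀ v, v ≠ 0 → v ^ m * Ne z v b d = P.eval v
  even_degd : ∀ (n : ℕ) (z b : List ℂ) (v : ℂ), NZ (z ++ b ++ [v]) →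
    z.length + 2 * b.length = 2 * n →
    ∃ P : ℂ[X], P.natDegree ≤ 2 * n ∧ ∀ d, d ≠ 0 → d ^ n * Ne z v b d = P.eval d

/-- the statements about the right-hand side -/
structure RSide (q : ℂ) (No Ne : List ℂ → ℂ → List ℂ → ℂ → ℂ) : Prop where
  odd_perm : ∀ (z z' b b' : List ℂ) (α d : ℂ), z.Perm z' → b.Perm b' → No z α b d = No z' α b' d
  even_perm : ∀ (z z' b b' : List ℂ) (v d : ℂ), z.Perm z' → b.Perm b' → Ne z v b d = Ne z' v b' d
  /-- dependence on `X'` only -/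
  odd_X' : ∀ (z z' b b' : List ℂ) (α d d' : ℂ), z.map X' = z'.map X' → b.map X' = b'.map X' →
    X' d = X' d' → No z α b d = No z' α b' d'
  even_X' : ∀ (z z' b b' : List ℂ) (v v' d d' : ℂ), z.map X' = z'.map X' → b.map X' = b'.map X' →
    X' v = X' v' → X' d = X' d' → Ne z v b d = Ne z' v' b' d'
  odd_i : ∀ (z : List ℂ) (x : ℂ) (b : List ℂ) (d : ℂ), NZ (z ++ b ++ [x, d]) →
    No (z ++ [x]) (q * x) b d =
      ((z.map X' ++ (dbl (b.map X') ++ [X' d])).map fun t => t - X' (q⁻¹ * x)).prod *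
        Ne z x b d
  odd_ii : ∀ (z : List ℂ) (α : ℂ) (b : List ℂ) (d : ℂ), NZ (z ++ b ++ [α, d]) →
    No z α ((q * α) :: b) d =
      ((z.map X' ++ (X' (q * α) :: (dbl (b.map X') ++ [X' d]))).map
        fun t => t - X' (q⁻¹ * α)).prod * No z (q * α)⁻¹ b d
  even_iii : ∀ (z : List ℂ) (x : ℂ) (b : List ℂ) (d : ℂ), NZ (z ++ b ++ [x, d]) →
    Ne (z ++ [x]) (q⁻¹ * x) b d =
      ((z.map X').map fun t => t - X' (q * x)).prod * No z x b d
  odd_v : ∀ (z : List ℂ) (α : ℂ) (b : List ℂ) (x : ℂ), NZ (z ++ b ++ [α, x]) →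
    No z α (b ++ [x]) (q * x⁻¹) =
      ((z.map X' ++ (X' α :: (dbl (b.map X') ++ [X' x]))).map
        fun t => t - X' (q⁻¹ * x⁻¹)).prod * No z α b x
  even_v : ∀ (z : List ℂ) (v : ℂ) (b : List ℂ) (x : ℂ), NZ (z ++ b ++ [v, x]) →
    Ne z v (b ++ [x]) (q * x⁻¹) =
      ((z.map X' ++ (dbl (b.map X') ++ [X' x])).map
        fun t => t - X' (q⁻¹ * x⁻¹)).prod * Ne z v b x
  odd_vi : ∀ (z : List ℂ) (α : ℂ) (b : List ℂ) (x d : ℂ), NZ (z ++ b ++ [α, x, d]) →
    x⁻¹ = q * x → No z α (b ++ [x]) d =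
      ((z.map X' ++ (X' α :: (dbl (b.map X') ++ [X' d]))).map
        fun t => t - X' (q⁻¹ * x)).prod * No z α b d
  odd_base : ∀ (z α d : ℂ), NZ [z, α, d] → No [z] α [] d = X' d - X' (q * α)
  even_base : ∀ (v d : ℂ), Ne [] v [] d = 1
  odd_degα : ∀ (n : ℕ) (z b : List ℂ) (d : ℂ), z.length + 2 * b.length + 1 = 2 * n →
    ∃ P : ℂ[X], P.natDegree ≤ 2 * n ∧ ∀ α, α ≠ 0 → α ^ n * No z α b d = P.eval α
  odd_degd : ∀ (n : ℕ) (z b : List ℂ) (α : ℂ), z.length + 2 * b.length + 1 = 2 * n →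
    ∃ P : ℂ[X], P.natDegree ≤ n ∧ ∀ d, No z α b d = P.eval (X' d)
  odd_degb : ∀ (z α d : ℂ), ∃ P : ℂ[X], P.natDegree ≤ 4 ∧ ∀ x, No [z] α [x] d = P.eval (X' x)
  even_degv : ∀ (m : ℕ) (z b : List ℂ) (d : ℂ), z.length = 2 * m →
    ∃ P : ℂ[X], P.natDegree ≤ m ∧ ∀ v, Ne z v b d = P.eval (X' v)
  even_degd : ∀ (n : ℕ) (z b : List ℂ) (v : ℂ), z.length + 2 * b.length = 2 * n →
    ∃ P : ℂ[X], P.natDegree ≤ n ∧ ∀ d, Ne z v b d = P.eval (X' d)

/-! ### conversions -/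

theorem X'_eq : X' = c := rfl

theorem dbl_perm (l : List ℂ) : (dbl l).Perm (l ++ l) := by
  induction l with
  | nil => simp [dbl]
  | cons x l ih =>
    have h1 : (dbl (x :: l)).Perm (x :: x :: (l ++ l)) := (ih.cons x).cons x
    refine h1.trans ?_
    rw [List.cons_append]
    refine List.Perm.cons x ?_
    exact (List.perm_middle).symm

theorem prod_dbl (z b : List ℂ) (d y : ℂ) :
    ((z.map X' ++ (dbl (b.map X') ++ [X' d])).map fun t => t - y).prod = pr (z ++ b ++ b ++ [d]) y := by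
  unfold pr
  have h : (z.map X' ++ (dbl (b.map X') ++ [X' d])).Perm ((z ++ b ++ b ++ [d]).map X') := by
    rw [List.map_append, List.map_append, List.map_append, List.append_assoc, List.append_assoc]
    apply List.Perm.append_left
    rw [← List.append_assoc]
    exact List.Perm.append_right _ (dbl_perm _)
  rw [(h.map _).prod_eq, List.map_map]
  rfl

theorem prod_dbl' (z b : List ℂ) (u d y : ℂ) :
    ((z.map X' ++ (X' u :: (dbl (b.map X') ++ [X' d]))).map fun t => t - y).prod =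
      pr (z ++ [u] ++ b ++ b ++ [d]) y := by
  have := prod_dbl (z ++ [u]) b d y
  rw [← this]
  congr 2
  simp

theorem prod_map (z : List ℂ) (y : ℂ) : ((z.map X').map fun t => t - y).prod = pr z y := by
  unfold pr
  rw [List.map_map]
  rfl

theorem pr_perm {T T' : List ℂ} (h : T.Perm T') (y : ℂ) : pr T y = pr T' y := by
  unfold pr
  exact (h.map _).prod_eq

theorem tau_eq_iff {x y : ℂ} (hx : x ≠ 0) (hy : y ≠ 0) :
    tau x = tau y ↔ x ^ 3 = y ^ 3 ∨ x ^ 3 * y ^ 3 = 1 := by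
  unfold tau
  have hx3 : x ^ 3 ≠ 0 := pow_ne_zero _ hx
  have hy3 : y ^ 3 ≠ 0 := pow_ne_zero _ hy
  generalize x ^ 3 = u at *
  generalize y ^ 3 = v at *
  constructor
  · intro h
    have h3 : (u - v) * (u * v - 1) = 0 := by
      field_simp at h
      linear_combination h
    rcases mul_eq_zero.1 h3 with h4 | h4
    · exact Or.inl (sub_eq_zero.1 h4)
    · exact Or.inr (sub_eq_zero.1 h4)
  · rintro (h | h)
    · rw [h]
    · rw [eq_inv_of_mul_eq_one_left h, inv_inv]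
      ring

theorem tau_ne_two_iff {x : ℂ} (hx : x ≠ 0) : (tau x ≠ 2 ∧ tau x ≠ -2) ↔ x ^ 6 ≠ 1 := by
  have hx3 : x ^ 3 ≠ 0 := pow_ne_zero _ hx
  have h6 : x ^ 6 = x ^ 3 * x ^ 3 := by ring
  rw [h6]
  unfold tau
  generalize x ^ 3 = u at *
  constructor
  · rintro ⟨h1, h2⟩ h
    have h3 : (u - 1) * (u + 1) = 0 := by linear_combination h
    rcases mul_eq_zero.1 h3 with h4 | h4
    · apply h1
      have : u = 1 := by linear_combination h4
      rw [this]; norm_num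
    · apply h2
      have : u = -1 := by linear_combination h4
      rw [this]; norm_num
  · intro h
    constructor
    · intro h1
      apply h
      have : (u - 1) ^ 2 = 0 := by
        field_simp at h1
        linear_combination h1
      have h2 : u = 1 := by
        have := pow_eq_zero_iff (two_ne_zero) |>.1 this
        linear_combination this
      rw [h2]; norm_num
    · intro h1
      apply h
      have : (u + 1) ^ 2 = 0 := by
        field_simp at h1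
        linear_combination h1
      have h2 : u = -1 := by
        have := pow_eq_zero_iff (two_ne_zero) |>.1 this
        linear_combination this
      rw [h2]; norm_num

theorem gen_iff (l : List ℂ) : Pool.Agent.H72.Cardy.Gen l ↔ Gen l := by
  unfold Pool.Agent.H72.Cardy.Gen Gen
  constructor
  · rintro ⟨h1, h2⟩
    refine ⟨fun t ht => ⟨(h1 t ht).1, (tau_ne_two_iff (h1 t ht).1).2 (h1 t ht).2⟩, ?_⟩
    rw [List.Nodup, List.pairwise_map]
    refine List.Pairwise.imp_of_mem ?_ h2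
    intro x y hx hy h h3
    rcases (tau_eq_iff (h1 x hx).1 (h1 y hy).1).1 h3 with h4 | h4
    · exact h.1 h4
    · exact h.2 h4
  · rintro ⟨h1, h2⟩
    refine ⟨fun t ht => ⟨(h1 t ht).1, (tau_ne_two_iff (h1 t ht).1).1 (h1 t ht).2⟩, ?_⟩
    rw [List.Nodup, List.pairwise_map] at h2
    refine List.Pairwise.imp_of_mem ?_ h2
    intro x y hx hy h
    constructor
    · intro h3
      exact h ((tau_eq_iff (h1 x hx).1 (h1 y hy).1).2 (Or.inl h3))
    · intro h3
      exact h ((tau_eq_iff (h1 x hx).1 (h1 y hy).1).2 (Or.inr h3))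

theorem Gen.pair {l₁ : List ℂ} {x y : ℂ} {l₂ : List ℂ} (h : Gen (l₁ ++ x :: y :: l₂)) :
    x ^ 3 ≠ y ^ 3 ∧ x ^ 3 * y ^ 3 ≠ 1 := by
  have h' : Gen (x :: y :: l₂) := h.subperm (List.sublist_append_right _ _).subperm
  have h2 := ((gen_iff _).2 h').2
  rw [List.pairwise_cons] at h2
  exact h2.1 y (by simp)

theorem NZ.mono {T T' : List ℂ} (h : NZ T) (hs : ∀ t ∈ T', t ∈ T) : NZ T' := fun t ht => h t (hs t ht)

theorem nz_append {T T' : List ℂ} : NZ (T ++ T') ↔ NZ T ∧ NZ T' := by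
  unfold NZ
  simp only [List.mem_append]
  constructor
  · exact fun h => ⟨fun t ht => h t (Or.inl ht), fun t ht => h t (Or.inr ht)⟩
  · rintro ⟨h1, h2⟩ t (ht | ht)
    · exact h1 t ht
    · exact h2 t ht

theorem nz_cons {T : List ℂ} {t : ℂ} : NZ (t :: T) ↔ t ≠ 0 ∧ NZ T := by
  unfold NZ
  simp

theorem nz_nil : NZ [] := fun t ht => by simp at ht

/-- invariance under permutations from invariance under adjacent transpositions -/
theorem perm_of_swap {γ : Type*} (F : List ℂ → γ)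
    (hswap : ∀ l₁ x y l₂, Gen (l₁ ++ x :: y :: l₂) → F (l₁ ++ y :: x :: l₂) = F (l₁ ++ x :: y :: l₂))
    {l l' : List ℂ} (h : l.Perm l') : ∀ l₀, Gen (l₀ ++ l) → F (l₀ ++ l) = F (l₀ ++ l') := by
  induction h with
  | nil => intro l₀ _; rfl
  | cons x _ ih =>
    intro l₀ hg
    have := ih (l₀ ++ [x]) (by simpa using hg)
    simpa using this
  | swap x y l =>
    intro l₀ hg
    exact (hswap l₀ y x l hg).symm
  | trans h1 _ ih1 ih2 =>
    intro l₀ hg
    rw [ih1 l₀ hg]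
    exact ih2 l₀ (hg.perm (List.Perm.append_left l₀ h1))

/-! ### an even Laurent polynomial is a polynomial in `z + 1/z` -/

theorem even_laurent (n : ℕ) : ∀ (f : ℂ → ℂ) (P : ℂ[X]), P.natDegree ≤ 2 * n →
    (∀ d, d ≠ 0 → d ^ n * f d = P.eval d) → (∀ d, d ≠ 0 → f d⁻¹ = f d) →
    ∃ Q : ℂ[X], Q.natDegree ≤ n ∧ ∀ d, d ≠ 0 → f d = Q.eval (c d) := by
  induction n with
  | zero =>
    intro f P hP hf hev
    refine ⟨P, hP, fun d hd => ?_⟩
    have h1 := hf d hd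
    rw [pow_zero, one_mul] at h1
    obtain ⟨a, ha⟩ : ∃ a, P = C a :=
      ⟨_, Polynomial.eq_C_of_natDegree_le_zero (by simpa using hP)⟩
    rw [h1, ha, eval_C, eval_C]
  | succ n ih =>
    intro f P hP hf hev
    set s := P.coeff (2 * (n + 1)) with hs
    -- palindromic
    have hpal : P.reflect (2 * (n + 1)) = P := by
      apply Polynomial.eq_of_infinite_eval_eq
      refine (Set.finite_singleton (0 : ℂ)).infinite_compl.mono ?_
      intro d hd
      have hd0 : d ≠ 0 := by simpa using hd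
      simp only [Set.mem_ofPred_eq]
      have h1 := hf d hd0
      have h2 := hf d⁻¹ (inv_ne_zero hd0)
      rw [hev d hd0] at h2
      have : Invertible (d⁻¹) := invertibleOfNonzero (inv_ne_zero hd0)
      have h3 := Polynomial.eval₂_reflect_mul_pow (RingHom.id ℂ) d⁻¹ (2 * (n + 1)) P hP
      rw [invOf_eq_inv, inv_inv] at h3
      have h4 : eval d (P.reflect (2 * (n + 1))) * d⁻¹ ^ (2 * (n + 1)) = eval d⁻¹ P := h3
      rw [← h2] at h4
      have h5 : d⁻¹ ^ (2 * (n + 1)) * d ^ (2 * (n + 1)) = 1 := by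
        rw [← mul_pow, inv_mul_cancel₀ hd0, one_pow]
      have h6 : d⁻¹ ^ (n + 1) * d ^ (n + 1) = 1 := by
        rw [← mul_pow, inv_mul_cancel₀ hd0, one_pow]
      calc eval d (P.reflect (2 * (n + 1)))
          = eval d (P.reflect (2 * (n + 1))) * d⁻¹ ^ (2 * (n + 1)) * d ^ (2 * (n + 1)) := by
            rw [mul_assoc, h5, mul_one]
        _ = (d⁻¹ ^ (n + 1) * d ^ (n + 1)) * (d ^ (n + 1) * f d) := by
            rw [h4]; ring
        _ = eval d P := by rw [h6, one_mul, h1]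
    have h0 : P.coeff 0 = s := by
      have := congrArg (fun p => p.coeff 0) hpal
      simp only [Polynomial.coeff_reflect] at this
      rw [Polynomial.revAt_le (Nat.zero_le _), Nat.sub_zero] at this
      exact this.symm
    -- subtract the leading term
    set P1 : ℂ[X] := P - C s * (X ^ 2 + 1) ^ (n + 1) with hP1
    have hdeg2 : ((X : ℂ[X]) ^ 2 + 1).natDegree = 2 := by
      have : (X : ℂ[X]) ^ 2 + 1 = X ^ 2 + C 1 := by simp
      rw [this, Polynomial.natDegree_X_pow_add_C]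
    have hmon : ((X : ℂ[X]) ^ 2 + 1).Monic := by
      have : (X : ℂ[X]) ^ 2 + 1 = X ^ 2 + C 1 := by simp
      rw [this]
      exact Polynomial.monic_X_pow_add_C _ (by norm_num)
    have hdegp : (((X : ℂ[X]) ^ 2 + 1) ^ (n + 1)).natDegree = 2 * (n + 1) := by
      rw [hmon.natDegree_pow, hdeg2]; ring
    have hP1d : P1.natDegree ≤ 2 * (n + 1) := by
      refine (Polynomial.natDegree_sub_le _ _).trans (max_le hP ?_)
      exact (Polynomial.natDegree_C_mul_le _ _).trans hdegp.le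
    have hlead : P1.coeff (2 * (n + 1)) = 0 := by
      rw [hP1, Polynomial.coeff_sub, Polynomial.coeff_C_mul]
      have : ((((X : ℂ[X]) ^ 2 + 1) ^ (n + 1))).coeff (2 * (n + 1)) = 1 := by
        have h := (hmon.pow (n + 1)).coeff_natDegree
        rwa [hdegp] at h
      rw [this, mul_one, sub_self]
    have hzero : P1.coeff 0 = 0 := by
      rw [hP1, Polynomial.coeff_sub, Polynomial.coeff_C_mul, h0]
      have : ((((X : ℂ[X]) ^ 2 + 1) ^ (n + 1))).coeff 0 = 1 := by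
        rw [Polynomial.coeff_zero_eq_eval_zero]
        simp
      rw [this, mul_one, sub_self]
    obtain ⟨P2, hP2⟩ : (X : ℂ[X]) ∣ P1 := Polynomial.X_dvd_iff.2 hzero
    have hP2d : P2.natDegree ≤ 2 * n := by
      by_cases h : P2 = 0
      · rw [h]; simp
      have h7 : P1.natDegree = P2.natDegree + 1 := by
        rw [hP2, Polynomial.natDegree_X_mul h]
      have h8 : P1.natDegree ≠ 2 * (n + 1) := by
        intro h9
        have h10 : P1 ≠ 0 := by
          rw [hP2]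
          exact mul_ne_zero X_ne_zero h
        have h11 := Polynomial.leadingCoeff_ne_zero.2 h10
        rw [Polynomial.leadingCoeff, h9] at h11
        exact h11 hlead
      omega
    obtain ⟨Q, hQd, hQ⟩ := ih (fun d => f d - s * c d ^ (n + 1)) P2 hP2d (by
      intro d hd
      have h12 := hf d hd
      have h13 : P1.eval d = d * P2.eval d := by rw [hP2, eval_mul, eval_X]
      have h14 : P1.eval d = P.eval d - s * (d ^ 2 + 1) ^ (n + 1) := by
        rw [hP1]; simp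
      have h15 : d * c d = d ^ 2 + 1 := by
        unfold c; field_simp
      have h16 : d ^ (n + 1) * c d ^ (n + 1) = (d ^ 2 + 1) ^ (n + 1) := by
        rw [← mul_pow, h15]
      have h17 : d * (d ^ n * (f d - s * c d ^ (n + 1))) = d * P2.eval d := by
        rw [← h13, h14, ← h12, ← h16]
        ring
      exact mul_left_cancel₀ hd h17) (by
      intro d hd
      rw [hev d hd, c_inv])
    refine ⟨Q + C s * X ^ (n + 1), ?_, ?_⟩
    · refine (Polynomial.natDegree_add_le _ _).trans (max_le (hQd.trans (Nat.le_succ n)) ?_)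
      exact Polynomial.natDegree_C_mul_X_pow_le _ _
    · intro d hd
      have := hQ d hd
      simp only [eval_add, eval_mul, eval_C, eval_pow, eval_X]
      rw [← this]
      ring

theorem laurent_of_poly {f : ℂ → ℂ} (n : ℕ) (P : ℂ[X]) (hP : P.natDegree ≤ n)
    (hf : ∀ d, f d = P.eval (X' d)) :
    ∃ Q : ℂ[X], Q.natDegree ≤ 2 * n ∧ ∀ d, d ≠ 0 → d ^ n * f d = Q.eval d := by
  refine ⟨∑ i ∈ Finset.range (n + 1), C (P.coeff i) * (X ^ 2 + 1) ^ i * X ^ (n - i), ?_, ?_⟩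
  · apply Polynomial.natDegree_sum_le_of_forall_le
    intro i hi
    have hi' : i ≤ n := by simpa [Nat.lt_succ_iff] using hi
    have h1 : ((X : ℂ[X]) ^ 2 + 1).natDegree ≤ 2 := by
      have : (X : ℂ[X]) ^ 2 + 1 = X ^ 2 + C 1 := by simp
      rw [this, Polynomial.natDegree_X_pow_add_C]
    have h2 : (C (P.coeff i) * ((X : ℂ[X]) ^ 2 + 1) ^ i).natDegree ≤ i * 2 :=
      (Polynomial.natDegree_C_mul_le _ _).trans
        ((Polynomial.natDegree_pow_le).trans (Nat.mul_le_mul_left i h1))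
    have h3 : ((X : ℂ[X]) ^ (n - i)).natDegree ≤ n - i := by simp
    have h4 := Polynomial.natDegree_mul_le_of_le h2 h3
    exact h4.trans (by omega)
  · intro d hd
    rw [hf, Polynomial.eval_eq_sum_range' (Nat.lt_succ_of_le hP), Finset.mul_sum,
      Polynomial.eval_finsetSum]
    apply Finset.sum_congr rfl
    intro i hi
    have hi' : i ≤ n := by simpa [Nat.lt_succ_iff] using hi
    have h1 : d * X' d = d ^ 2 + 1 := by
      unfold X'; field_simp
    have h2 : d ^ n = d ^ i * d ^ (n - i) := by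
      rw [← pow_add]; congr 1; omega
    simp only [eval_mul, eval_C, eval_pow, eval_add, eval_X, eval_one]
    rw [h2, ← h1, mul_pow]
    ring

/-! ### the two sides satisfy `Facts` -/

theorem om_inv {q : ℂ} (hq : q ^ 2 + q + 1 = 0) : q⁻¹ = q ^ 2 := by
  have h3 := om3 hq
  have h0 := om_ne hq
  field_simp
  linear_combination -h3

theorem facts_N {q : ℂ} (hq : q ^ 2 + q + 1 = 0) {No Ne : List ℂ → ℂ → List ℂ → ℂ → ℂ}
    (h : NSide q No Ne) : Facts q No Ne := by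
  have hq0 := om_ne hq
  have hq3 := om3 hq
  have hqi := om_inv hq
  have permX : ∀ X X' a B g, List.Perm X X' → Gen X → NZ B → a ≠ 0 → g ≠ 0 →
      No X a B g = No X' a B g := by
    intro X X' a B g hp hX hB ha hg
    refine perm_of_swap (fun l => No l a B g) ?_ hp [] hX
    intro l₁ x y l₂ hgen
    apply h.odd_swap
    · rw [nz_append, nz_append]
      exact ⟨⟨hgen.nz, hB⟩, nz_cons.2 ⟨ha, nz_cons.2 ⟨hg, nz_nil⟩⟩⟩
    · exact hgen.pair.1
  have permB : ∀ X a B B' g, List.Perm B B' → NZ X → Gen B → a ≠ 0 → g ≠ 0 →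
      No X a B g = No X a B' g := by
    intro X a B B' g hp hX hB ha hg
    refine perm_of_swap (fun l => No X a l g) ?_ hp [] hB
    intro l₁ x y l₂ hgen
    apply h.odd_bswap
    · rw [List.append_assoc X, nz_append, nz_append]
      exact ⟨⟨hX, hgen.nz⟩, nz_cons.2 ⟨ha, nz_cons.2 ⟨hg, nz_nil⟩⟩⟩
    · exact hgen.pair.1
    · exact hgen.pair.2
  have permX' : ∀ X X' v B g, List.Perm X X' → Gen X → NZ B → v ≠ 0 → g ≠ 0 →
      Ne X v B g = Ne X' v B g := by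
    intro X X' v B g hp hX hB hv hg
    refine perm_of_swap (fun l => Ne l v B g) ?_ hp [] hX
    intro l₁ x y l₂ hgen
    apply h.even_swap
    · rw [nz_append, nz_append]
      exact ⟨⟨hgen.nz, hB⟩, nz_cons.2 ⟨hv, nz_cons.2 ⟨hg, nz_nil⟩⟩⟩
    · exact hgen.pair.1
  have permB' : ∀ v B B' g, List.Perm B B' → Gen B → v ≠ 0 → g ≠ 0 →
      Ne [] v B g = Ne [] v B' g := by
    intro v B B' g hp hB hv hg
    refine perm_of_swap (fun l => Ne [] v l g) ?_ hp [] hB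
    intro l₁ x y l₂ hgen
    apply h.even_bswap
    · rw [List.append_assoc [], nz_append, nz_append]
      exact ⟨⟨nz_nil, hgen.nz⟩, nz_cons.2 ⟨hv, nz_cons.2 ⟨hg, nz_nil⟩⟩⟩
    · exact hgen.pair.1
    · exact hgen.pair.2
  have evB : ∀ X a b B g, b ≠ 0 → NZ X → NZ B → a ≠ 0 → g ≠ 0 →
      No X a (b⁻¹ :: B) g = No X a (b :: B) g := by
    intro X a b B g hb hX hB ha hg
    have := h.odd_binv X a [] b B g (by
      rw [List.append_nil, nz_append, nz_append]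
      exact ⟨⟨hX, nz_cons.2 ⟨hb, hB⟩⟩, nz_cons.2 ⟨ha, nz_cons.2 ⟨hg, nz_nil⟩⟩⟩)
    simpa using this
  have evB' : ∀ v b B g, b ≠ 0 → NZ B → v ≠ 0 → g ≠ 0 →
      Ne [] v (b⁻¹ :: B) g = Ne [] v (b :: B) g := by
    intro v b B g hb hB hv hg
    have := h.even_binv [] v [] b B g (by
      rw [List.append_nil, List.nil_append, nz_append]
      exact ⟨nz_cons.2 ⟨hb, hB⟩, nz_cons.2 ⟨hv, nz_cons.2 ⟨hg, nz_nil⟩⟩⟩)
    simpa using this
  have evg : ∀ X a B g, NZ X → NZ B → a ≠ 0 → g ≠ 0 → No X a B g⁻¹ = No X a B g := by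
    intro X a B g hX hB ha hg
    apply h.odd_deven
    rw [nz_append, nz_append]
    exact ⟨⟨hX, hB⟩, nz_cons.2 ⟨ha, nz_cons.2 ⟨hg, nz_nil⟩⟩⟩
  have evg' : ∀ v B g, NZ B → v ≠ 0 → g ≠ 0 → Ne [] v B g⁻¹ = Ne [] v B g := by
    intro v B g hB hv hg
    apply h.even_deven
    rw [nz_append, nz_append]
    exact ⟨⟨nz_nil, hB⟩, nz_cons.2 ⟨hv, nz_cons.2 ⟨hg, nz_nil⟩⟩⟩
  have evv' : ∀ X v B g, NZ X → NZ B → v ≠ 0 → g ≠ 0 → Ne X v⁻¹ B g = Ne X v B g := by
    intro X v B g hX hB hv hg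
    apply h.even_veven
    rw [nz_append, nz_append]
    exact ⟨⟨hX, hB⟩, nz_cons.2 ⟨hv, nz_cons.2 ⟨hg, nz_nil⟩⟩⟩
  refine
    { permX := permX, permB := permB, permX' := permX', permB' := permB', evB := evB, evB' := evB',
      evg := evg, evg' := evg', evv' := evv', evX := ?_, evX' := ?_, degA := ?_, degG := ?_,
      degB := ?_, degV := ?_, degG' := ?_, E1 := ?_, E2 := ?_, E3 := ?_, E4 := ?_, E4' := ?_,
      E5 := ?_, base := ?_, base' := ?_ }
  · intro x X a B g hx hX hB ha hg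
    apply h.odd_even
    rw [nz_append, nz_append]
    exact ⟨⟨nz_cons.2 ⟨hx, hX⟩, hB⟩, nz_cons.2 ⟨ha, nz_cons.2 ⟨hg, nz_nil⟩⟩⟩
  · intro x X v B g hx hX hB hv hg
    apply h.even_even
    rw [nz_append, nz_append]
    exact ⟨⟨nz_cons.2 ⟨hx, hX⟩, hB⟩, nz_cons.2 ⟨hv, nz_cons.2 ⟨hg, nz_nil⟩⟩⟩
  · intro X B g hodd hX hB hg
    have hn : X.length + 2 * B.length + 1 = 2 * ((X.length + 1) / 2 + B.length) := by
      obtain ⟨m, hm⟩ := hodd
      omega
    obtain ⟨P, hPd, hP⟩ := h.odd_degα _ X B g (by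
      rw [nz_append, nz_append]; exact ⟨⟨hX, hB⟩, nz_cons.2 ⟨hg, nz_nil⟩⟩) hn
    exact ⟨P, hPd.trans hn.symm.le, hP⟩
  · intro x a B hx hB ha
    obtain ⟨P, hPd, hP⟩ := h.odd_degd (B.length + 1) [x] B a (by
      rw [nz_append, nz_append]
      exact ⟨⟨nz_cons.2 ⟨hx, nz_nil⟩, hB⟩, nz_cons.2 ⟨ha, nz_nil⟩⟩) (by simp; omega)
    exact even_laurent _ _ P hPd hP fun d hd => evg [x] a B d (nz_cons.2 ⟨hx, nz_nil⟩) hB ha hd
  · intro x a g hx ha hg
    obtain ⟨P, hPd, hP⟩ := h.odd_degb x a g (nz_cons.2 ⟨hx, nz_cons.2 ⟨ha, nz_cons.2 ⟨hg, nz_nil⟩⟩⟩)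
    exact even_laurent 4 (fun b => No [x] a [b] g) P hPd hP
      fun b hb => evB [x] a b [] g hb (nz_cons.2 ⟨hx, nz_nil⟩) nz_nil ha hg
  · intro X B g hev hX hB hg
    have hn : X.length = 2 * (X.length / 2) := by
      obtain ⟨m, hm⟩ := hev
      omega
    obtain ⟨P, hPd, hP⟩ := h.even_degv _ X B g (by
      rw [nz_append, nz_append]; exact ⟨⟨hX, hB⟩, nz_cons.2 ⟨hg, nz_nil⟩⟩) hn
    exact even_laurent _ (fun v => Ne X v B g) P hPd hP fun v hv => evv' X v B g hX hB hv hg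
  · intro v B hB hv
    obtain ⟨P, hPd, hP⟩ := h.even_degd B.length [] B v (by
      rw [nz_append, nz_append]; exact ⟨⟨nz_nil, hB⟩, nz_cons.2 ⟨hv, nz_nil⟩⟩) (by simp)
    exact even_laurent _ _ P hPd hP fun d hd => evg' v B d hB hv hd
  · intro x X B g hev hgen hB hg
    have hp : List.Perm (x :: X) (X ++ [x]) := (List.perm_append_singleton x X).symm
    have hx : x ≠ 0 := hgen.nz x (by simp)
    have hX : NZ X := fun t ht => hgen.nz t (by simp [ht])
    rw [permX _ _ _ B g hp hgen hB (mul_ne_zero hq0 hx) hg, h.odd_i X x B g (by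
      rw [nz_append, nz_append]
      exact ⟨⟨hX, hB⟩, nz_cons.2 ⟨hx, nz_cons.2 ⟨hg, nz_nil⟩⟩⟩), prod_dbl, hqi]
    rfl
  · intro x X B g hodd hgen hB hg
    have hp : List.Perm (x :: X) (X ++ [x]) := (List.perm_append_singleton x X).symm
    have hx : x ≠ 0 := hgen.nz x (by simp)
    have hX : NZ X := fun t ht => hgen.nz t (by simp [ht])
    have e1 : x / q = q⁻¹ * x := by rw [div_eq_mul_inv, mul_comm]
    rw [permX' _ _ _ B g hp hgen hB (div_ne_zero hx hq0) hg, e1, h.even_iii X x B g (by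
      rw [nz_append, nz_append]
      exact ⟨⟨hX, hB⟩, nz_cons.2 ⟨hx, nz_cons.2 ⟨hg, nz_nil⟩⟩⟩), prod_map]
    rfl
  · intro X b B g hodd hb hX hB hg
    have e1 : q * (b / q) = b := by field_simp
    have e2 : q⁻¹ * (b / q) = q * b := by
      rw [hqi, div_eq_mul_inv, hqi]
      linear_combination (q * b) * hq3
    have := h.odd_ii X (b / q) B g (by
      rw [nz_append, nz_append]
      exact ⟨⟨hX, hB⟩, nz_cons.2 ⟨div_ne_zero hb hq0, nz_cons.2 ⟨hg, nz_nil⟩⟩⟩)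
    rw [e1, e2, prod_dbl'] at this
    exact this
  · intro x a b B hx ha hgen
    have hb : b ≠ 0 := hgen.nz b (by simp)
    have hB : NZ B := fun t ht => hgen.nz t (by simp [ht])
    have hX : NZ [x] := nz_cons.2 ⟨hx, nz_nil⟩
    have hp : List.Perm (b :: B) (B ++ [b]) := (List.perm_append_singleton b B).symm
    have hqb : q * b ≠ 0 := mul_ne_zero hq0 hb
    rw [permB [x] a _ _ _ hp hX hgen ha hqb]
    have h1 := h.odd_binv [x] a B b [] (q * b) (by
      rw [nz_append, nz_append, nz_append]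
      exact ⟨⟨⟨hX, hB⟩, nz_cons.2 ⟨hb, nz_nil⟩⟩, nz_cons.2 ⟨ha, nz_cons.2 ⟨hqb, nz_nil⟩⟩⟩)
    rw [← h1]
    have h2 := h.odd_v [x] a B b⁻¹ (by
      rw [nz_append, nz_append]
      exact ⟨⟨hX, hB⟩, nz_cons.2 ⟨ha, nz_cons.2 ⟨inv_ne_zero hb, nz_nil⟩⟩⟩)
    rw [inv_inv, evg [x] a B b hX hB ha hb, prod_dbl'] at h2
    rw [h2]
    congr 1
    have e1 : b / q = q⁻¹ * b := by rw [div_eq_mul_inv, mul_comm]
    rw [e1]
    unfold pr
    simp only [List.map_append, List.map_cons, List.map_nil, List.prod_append, List.prod_cons,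
      List.prod_nil, c_inv, X'_eq]
    ring
  · intro v b B hv hgen
    have hb : b ≠ 0 := hgen.nz b (by simp)
    have hB : NZ B := fun t ht => hgen.nz t (by simp [ht])
    have hp : List.Perm (b :: B) (B ++ [b]) := (List.perm_append_singleton b B).symm
    have hqb : q * b ≠ 0 := mul_ne_zero hq0 hb
    rw [permB' v _ _ _ hp hgen hv hqb]
    have h1 := h.even_binv [] v B b [] (q * b) (by
      rw [nz_append, nz_append, nz_append]
      exact ⟨⟨⟨nz_nil, hB⟩, nz_cons.2 ⟨hb, nz_nil⟩⟩, nz_cons.2 ⟨hv, nz_cons.2 ⟨hqb, nz_nil⟩⟩⟩)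
    rw [← h1]
    have h2 := h.even_v [] v B b⁻¹ (by
      rw [nz_append, nz_append]
      exact ⟨⟨nz_nil, hB⟩, nz_cons.2 ⟨hv, nz_cons.2 ⟨inv_ne_zero hb, nz_nil⟩⟩⟩)
    rw [inv_inv, evg' v B b hB hv hb, prod_dbl] at h2
    rw [h2]
    congr 1
    have e1 : b / q = q⁻¹ * b := by rw [div_eq_mul_inv, mul_comm]
    rw [e1]
    unfold pr
    simp only [List.map_append, List.map_cons, List.map_nil, List.prod_append, List.prod_cons,
      List.prod_nil, c_inv, X'_eq]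
    ring
  · intro x a g s hs hx ha hg
    have hs0 : s ≠ 0 := by
      rcases hs with rfl | rfl
      · exact hq0
      · exact neg_ne_zero.2 hq0
    have hinv : s⁻¹ = q * s := by
      have : q * s * s = 1 := by
        rcases hs with rfl | rfl
        · linear_combination hq3
        · linear_combination hq3
      exact (eq_inv_of_mul_eq_one_left this).symm
    have h1 := h.odd_vi [x] a [] s g (by
      rw [nz_append, nz_append]
      exact ⟨⟨nz_cons.2 ⟨hx, nz_nil⟩, nz_nil⟩, nz_cons.2 ⟨ha, nz_cons.2 ⟨hs0, nz_cons.2 ⟨hg, nz_nil⟩⟩⟩⟩)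
      hinv
    rw [List.nil_append, prod_dbl', hqi] at h1
    rw [h1]
    rfl
  · intro x a g hx ha hg
    exact h.odd_base x a g (nz_cons.2 ⟨hx, nz_cons.2 ⟨ha, nz_cons.2 ⟨hg, nz_nil⟩⟩⟩)
  · intro v g hv hg
    exact h.even_base v g (nz_cons.2 ⟨hv, nz_cons.2 ⟨hg, nz_nil⟩⟩)

theorem X'_inv (x : ℂ) : X' x⁻¹ = X' x := c_inv x

theorem facts_R {q : ℂ} (hq : q ^ 2 + q + 1 = 0) {No Ne : List ℂ → ℂ → List ℂ → ℂ → ℂ}
    (h : RSide q No Ne) : Facts q No Ne := by
  apply facts_N hq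
  constructor
  · intro l₁ x y l₂ α b d _ _
    exact h.odd_perm _ _ _ _ _ _ (List.Perm.append_left _ (List.Perm.swap _ _ _)) (List.Perm.refl _)
  · intro x l α b d _
    exact h.odd_X' _ _ _ _ _ _ _ (by simp [X'_inv]) rfl rfl
  · intro z α b₁ x b₂ d _
    exact h.odd_X' _ _ _ _ _ _ _ rfl (by simp [X'_inv]) rfl
  · intro z α b₁ x y b₂ d _ _ _
    exact h.odd_perm _ _ _ _ _ _ (List.Perm.refl _) (List.Perm.append_left _ (List.Perm.swap _ _ _))
  · intro z α b d _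
    exact h.odd_X' _ _ _ _ _ _ _ rfl rfl (X'_inv d)
  · intro l₁ x y l₂ v b d _ _
    exact h.even_perm _ _ _ _ _ _ (List.Perm.append_left _ (List.Perm.swap _ _ _)) (List.Perm.refl _)
  · intro x l v b d _
    exact h.even_X' _ _ _ _ _ _ _ _ (by simp [X'_inv]) rfl rfl rfl
  · intro z v b d _
    exact h.even_X' _ _ _ _ _ _ _ _ rfl rfl (X'_inv v) rfl
  · intro z v b₁ x b₂ d _
    exact h.even_X' _ _ _ _ _ _ _ _ rfl (by simp [X'_inv]) rfl rfl
  · intro z v b₁ x y b₂ d _ _ _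
    exact h.even_perm _ _ _ _ _ _ (List.Perm.refl _) (List.Perm.append_left _ (List.Perm.swap _ _ _))
  · intro z v b d _
    exact h.even_X' _ _ _ _ _ _ _ _ rfl rfl rfl (X'_inv d)
  · exact h.odd_i
  · exact h.odd_ii
  · exact h.even_iii
  · exact h.odd_v
  · exact h.even_v
  · exact h.odd_vi
  · exact h.odd_base
  · exact fun v d _ => h.even_base v d
  · exact fun n z b d _ hn => h.odd_degα n z b d hn
  · intro n z b α _ hn
    obtain ⟨P, hPd, hP⟩ := h.odd_degd n z b α hn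
    exact laurent_of_poly (f := fun d => No z α b d) n P hPd hP
  · intro z α d _
    obtain ⟨P, hPd, hP⟩ := h.odd_degb z α d
    exact laurent_of_poly (f := fun x => No [z] α [x] d) 4 P hPd hP
  · intro m z b d _ hm
    obtain ⟨P, hPd, hP⟩ := h.even_degv m z b d hm
    exact laurent_of_poly (f := fun v => Ne z v b d) m P hPd hP
  · intro n z b v _ hn
    obtain ⟨P, hPd, hP⟩ := h.even_degd n z b v hn
    exact laurent_of_poly (f := fun d => Ne z v b d) n P hPd hP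

/-- the interpolation theorem, odd case -/
theorem odd_eq {q : ℂ} (hq : q ^ 2 + q + 1 = 0) {No Ne No' Ne' : List ℂ → ℂ → List ℂ → ℂ → ℂ}
    (hN : NSide q No Ne) (hR : RSide q No' Ne') (z : List ℂ) (α : ℂ) (b : List ℂ) (d : ℂ)
    (hz : Odd z.length) (hg : Pool.Agent.H72.Cardy.Gen (z ++ b ++ [d])) (hα : α ≠ 0) :
    No z α b d = No' z α b d :=
  facts_unique_odd hq (facts_N hq hN) (facts_R hq hR) z α b d hz hα ((gen_iff _).1 hg)

/-- the interpolation theorem, even case -/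
theorem even_eq {q : ℂ} (hq : q ^ 2 + q + 1 = 0) {No Ne No' Ne' : List ℂ → ℂ → List ℂ → ℂ → ℂ}
    (hN : NSide q No Ne) (hR : RSide q No' Ne') (z : List ℂ) (v : ℂ) (b : List ℂ) (d : ℂ)
    (hz : Even z.length) (hg : Pool.Agent.H72.Cardy.Gen (z ++ b ++ [d])) (hv : v ≠ 0) :
    Ne z v b d = Ne' z v b d :=
  facts_unique_even hq (facts_N hq hN) (facts_R hq hR) z v b d hz hv ((gen_iff _).1 hg)

end Pool.Agent.H1.LStrip
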