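import Pool.Agent.H1.LStrip.Interface

set_option autoImplicit false

/-!
# L-strip: the uniqueness theorem

Two families satisfying `Facts` (same recursions, same degree bounds) agree at all generic
parameters: `facts_unique`.
-/

namespace Pool.Agent.H1.LStrip

/-! ### elementary lemmas -/

theorem tau_eq (u : ℂ) (hu : u ≠ 0) : tau u = c u ^ 3 - 3 * c u := by
  unfold tau c; field_simp; ring

theorem c_inv (u : ℂ) : c u⁻¹ = c u := by unfold c; rw [inv_inv]; ring

theorem tau_inv (u : ℂ) : tau u⁻¹ = tau u := by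
  unfold tau; rw [inv_pow, inv_inv]; ring

theorem om3 {om : ℂ} (h : om ^ 2 + om + 1 = 0) : om ^ 3 = 1 := by
  linear_combination (om - 1) * h

theorem om_ne {om : ℂ} (h : om ^ 2 + om + 1 = 0) : om ≠ 0 := by
  rintro rfl; norm_num at h

theorem tau_om {om : ℂ} (h : om ^ 2 + om + 1 = 0) (u : ℂ) : tau (om * u) = tau u := by
  unfold tau; rw [mul_pow, om3 h, one_mul]

theorem tau_div_om {om : ℂ} (h : om ^ 2 + om + 1 = 0) (u : ℂ) : tau (u / om) = tau u := by
  unfold tau; rw [div_pow, om3 h, div_one]

theorem tau_of_c {u v : ℂ} (hu : u ≠ 0) (hv : v ≠ 0) (h : c u = c v) : tau u = tau v := by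
  rw [tau_eq u hu, tau_eq v hv, h]

theorem Gen.nz {T : List ℂ} (h : Gen T) : NZ T := fun t ht => (h.1 t ht).1

theorem Gen.subperm {T T' : List ℂ} (h : Gen T) (hs : List.Subperm T' T) : Gen T' := by
  refine ⟨fun t ht => h.1 t (hs.subset ht), ?_⟩
  have : List.Subperm (T'.map tau) (T.map tau) := by
    obtain ⟨l, hl, hl'⟩ := hs
    exact ⟨l.map tau, hl.map tau, hl'.map tau⟩
  obtain ⟨l, hl, hl'⟩ := this
  exact hl.nodup_iff.1 (hl'.nodup h.2)

theorem Gen.perm {T T' : List ℂ} (h : Gen T) (hs : T.Perm T') : Gen T' :=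
  h.subperm hs.symm.subperm

theorem Gen.flip {t : ℂ} {T : List ℂ} (h : Gen (t :: T)) {s : ℂ} (hs : s = t ∨ s = t⁻¹) :
    Gen (s :: T) := by
  rcases hs with rfl | rfl
  · exact h
  · refine ⟨?_, ?_⟩
    · intro u hu
      rw [List.mem_cons] at hu
      rcases hu with rfl | hu
      · have := h.1 t (by simp)
        exact ⟨inv_ne_zero this.1, by rw [tau_inv]; exact this.2.1, by rw [tau_inv]; exact this.2.2⟩
      · exact h.1 u (by simp [hu])
    · have := h.2
      rw [List.map_cons] at this ⊢
      rw [tau_inv]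
      exact this

theorem inv_ne_self {t : ℂ} (ht : t ≠ 0) (h2 : tau t ≠ 2) (h2' : tau t ≠ -2) : t ≠ t⁻¹ := by
  intro h
  have h1 : t * t = 1 := by
    nth_rewrite 2 [h]
    exact mul_inv_cancel₀ ht
  have h3 : (t - 1) * (t + 1) = 0 := by linear_combination h1
  rcases mul_eq_zero.1 h3 with h4 | h4
  · have : t = 1 := by linear_combination h4
    subst this
    exact h2 (by unfold tau; norm_num)
  · have : t = -1 := by linear_combination h4
    subst this
    exact h2' (by unfold tau; norm_num)

/-- interpolation -/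
theorem poly_eq {P Q : Polynomial ℂ} {d : ℕ} (hP : P.natDegree ≤ d) (hQ : Q.natDegree ≤ d)
    (l : List ℂ) (hl : l.Nodup) (hd : d < l.length) (h : ∀ x ∈ l, P.eval x = Q.eval x) : P = Q := by
  have hs : l.toFinset.card = l.length := List.toFinset_card_of_nodup hl
  have h1 : P - Q = 0 := by
    apply Polynomial.eq_zero_of_natDegree_lt_card_of_eval_eq_zero' (P - Q) l.toFinset
    · intro x hx
      rw [Polynomial.eval_sub, h x (List.mem_toFinset.1 hx), sub_self]
    · rw [hs]
      exact lt_of_le_of_lt (Polynomial.natDegree_sub_le_of_le hP hQ) (by simpa using hd)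
  exact sub_eq_zero.1 h1

/-- nodes: a flatMap is duplicate free if each block is and blocks are separated by `tau` -/
theorem nodup_blocks (T : List ℂ) (f : ℂ → List ℂ) (F : ℂ → ℂ) (hT : (T.map tau).Nodup)
    (h1 : ∀ t ∈ T, (f t).Nodup) (h2 : ∀ t ∈ T, ∀ y ∈ f t, F y = tau t) : (T.flatMap f).Nodup := by
  rw [List.nodup_flatMap]
  refine ⟨h1, ?_⟩
  have h3 : T.Pairwise fun t t' => tau t ≠ tau t' := by
    have := List.pairwise_map.1 hT
    exact this
  refine List.Pairwise.imp_of_mem ?_ h3
  intro t t' ht ht' hne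
  simp only [Function.onFun, List.Disjoint]
  intro y hy hy'
  exact hne ((h2 t ht y hy).symm.trans (h2 t' ht' y hy'))

theorem c_sub_ne {u v : ℂ} (hu : u ≠ 0) (hv : v ≠ 0) (h1 : u ≠ v) (h2 : u * v ≠ 1) : c u ≠ c v := by
  intro h
  unfold c at h
  have h3 : (u - v) * (u * v - 1) = 0 := by
    field_simp at h
    linear_combination h
  rcases mul_eq_zero.1 h3 with h4 | h4
  · exact h1 (sub_eq_zero.1 h4)
  · exact h2 (sub_eq_zero.1 h4)

section main

variable {om : ℂ} (hom : om ^ 2 + om + 1 = 0) {No Ne No' Ne' : List ℂ → ℂ → List ℂ → ℂ → ℂ}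

/-- the induction hypothesis / conclusion at total size `N` -/
def Agree (No Ne No' Ne' : List ℂ → ℂ → List ℂ → ℂ → ℂ) (N : ℕ) : Prop :=
  ∀ X B g, X.length + B.length ≤ N → Gen (X ++ B ++ [g]) →
    (Odd X.length → ∀ a, a ≠ 0 → No X a B g = No' X a B g) ∧
    (Even X.length → ∀ v, v ≠ 0 → Ne X v B g = Ne' X v B g)

include hom

theorem c_om_ne {t : ℂ} (ht : t ≠ 0) (h2 : tau t ≠ 2) (h2' : tau t ≠ -2) :
    c (om * t) ≠ c (t / om) := by
  have ho := om_ne hom
  have h3 := om3 hom
  apply c_sub_ne (mul_ne_zero ho ht) (div_ne_zero ht ho)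
  · intro h
    rw [eq_div_iff ho] at h
    have h4 : om ^ 2 = 1 := by
      have : (om ^ 2 - 1) * t = 0 := by linear_combination h
      rcases mul_eq_zero.1 this with h5 | h5
      · linear_combination h5
      · exact absurd h5 ht
    have : om = 1 := by
      have : om * om ^ 2 = 1 := by linear_combination h3
      rw [h4, mul_one] at this
      exact this
    rw [this] at hom
    norm_num at hom
  · have : om * t * (t / om) = t * t := by field_simp
    rw [this]
    intro h
    exact inv_ne_self ht h2 h2' (eq_inv_of_mul_eq_one_left h)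

/-- the nodes `om * t^{±1}` -/
theorem nodes_nodup {T : List ℂ} (hT : Gen T) :
    (T.flatMap fun t => [om * t, om * t⁻¹]).Nodup := by
  have ho := om_ne hom
  apply nodup_blocks T _ tau hT.2
  · intro t ht
    obtain ⟨h0, h2, h2'⟩ := hT.1 t ht
    rw [List.nodup_cons]
    refine ⟨?_, List.nodup_singleton _⟩
    rw [List.mem_singleton]
    intro h
    exact inv_ne_self h0 h2 h2' (mul_left_cancel₀ ho h)
  · intro t ht y hy
    simp only [List.mem_cons, List.not_mem_nil, or_false] at hy
    rcases hy with rfl | rfl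
    · exact tau_om hom t
    · rw [tau_om hom, tau_inv]

/-- the nodes `c (om * t), c (t / om)` -/
theorem cnodes_nodup {T : List ℂ} (hT : Gen T) :
    (T.flatMap fun t => [c (om * t), c (t / om)]).Nodup := by
  have ho := om_ne hom
  apply nodup_blocks T _ (fun y => y ^ 3 - 3 * y) hT.2
  · intro t ht
    obtain ⟨h0, h2, h2'⟩ := hT.1 t ht
    rw [List.nodup_cons]
    refine ⟨?_, List.nodup_singleton _⟩
    rw [List.mem_singleton]
    exact c_om_ne hom h0 h2 h2'
  · intro t ht y hy
    have h0 := (hT.1 t ht).1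
    simp only [List.mem_cons, List.not_mem_nil, or_false] at hy
    rcases hy with rfl | rfl
    · show c (om * t) ^ 3 - 3 * c (om * t) = tau t
      rw [← tau_eq _ (mul_ne_zero ho h0), tau_om hom]
    · show c (t / om) ^ 3 - 3 * c (t / om) = tau t
      rw [← tau_eq _ (div_ne_zero h0 ho), tau_div_om hom]

/-- the nodes for the corner line -/
theorem anodes_nodup {X B : List ℂ} (hT : Gen (X ++ B)) :
    ((X.flatMap fun t => [om * t, om * t⁻¹]) ++ (B.flatMap fun t => [t / om, t⁻¹ / om])).Nodup := by
  have ho := om_ne hom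
  have hX : Gen X := hT.subperm (List.sublist_append_left X B).subperm
  have hB : Gen B := hT.subperm (List.sublist_append_right X B).subperm
  have htX : ∀ t, ∀ y ∈ [om * t, om * t⁻¹], tau y = tau t := by
    intro t y hy
    simp only [List.mem_cons, List.not_mem_nil, or_false] at hy
    rcases hy with rfl | rfl
    · exact tau_om hom t
    · rw [tau_om hom, tau_inv]
  have htB : ∀ t, ∀ y ∈ [t / om, t⁻¹ / om], tau y = tau t := by
    intro t y hy
    simp only [List.mem_cons, List.not_mem_nil, or_false] at hy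
    rcases hy with rfl | rfl
    · exact tau_div_om hom t
    · rw [tau_div_om hom, tau_inv]
  apply List.Nodup.append
  · exact nodes_nodup hom hX
  · apply nodup_blocks B _ tau hB.2
    · intro t ht
      obtain ⟨h0, h2, h2'⟩ := hB.1 t ht
      rw [List.nodup_cons]
      refine ⟨?_, List.nodup_singleton _⟩
      rw [List.mem_singleton]
      intro h
      rw [div_left_inj' ho] at h
      exact inv_ne_self h0 h2 h2' h
    · exact fun t _ y hy => htB t y hy
  · intro y hy hy'
    rw [List.mem_flatMap] at hy hy'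
    obtain ⟨t, ht, h1⟩ := hy
    obtain ⟨t', ht', h1'⟩ := hy'
    have h2 := (htX t y h1).symm.trans (htB t' y h1')
    have h3 := hT.2
    rw [List.map_append, List.nodup_append] at h3
    exact h3.2.2 _ (List.mem_map_of_mem ht) _ (List.mem_map_of_mem ht') h2

theorem step_even (hF : Facts om No Ne) (hG : Facts om No' Ne') {N : ℕ}
    (ih : Agree No Ne No' Ne' N) (X B : List ℂ) (g : ℂ) (hlen : X.length + B.length ≤ N + 1)
    (hX : X ≠ []) (hev : Even X.length) (hgen : Gen (X ++ B ++ [g])) (v : ℂ) (hv : v ≠ 0) :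
    Ne X v B g = Ne' X v B g := by
  classical
  have ho := om_ne hom
  have hnzX : NZ X := fun t ht => hgen.nz t (by simp [ht])
  have hnzB : NZ B := fun t ht => hgen.nz t (by simp [ht])
  have hg : g ≠ 0 := hgen.nz g (by simp)
  obtain ⟨P, hPd, hP⟩ := hF.degV X B g hev hnzX hnzB hg
  obtain ⟨Q, hQd, hQ⟩ := hG.degV X B g hev hnzX hnzB hg
  have hgX : Gen X := hgen.subperm (by
    rw [List.append_assoc]; exact (List.sublist_append_left _ _).subperm)
  have hlen0 : 0 < X.length := List.length_pos_of_ne_nil hX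
  have hlenl : (X.flatMap fun t => [c (om * t), c (t / om)]).length = 2 * X.length := by
    rw [List.length_flatMap]
    simp [mul_comm]
  have key : ∀ t ∈ X, ∀ s, s = t ∨ s = t⁻¹ → P.eval (c (s / om)) = Q.eval (c (s / om)) := by
    intro t ht s hs
    have ht0 := hnzX t ht
    have hs0 : s ≠ 0 := by
      rcases hs with rfl | rfl
      · exact ht0
      · exact inv_ne_zero ht0
    have hperm : X.Perm (t :: X.erase t) := List.perm_cons_erase ht
    have hnz' : NZ (X.erase t) := fun u hu => hnzX u (List.mem_of_mem_erase hu)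
    have hso : s / om ≠ 0 := div_ne_zero hs0 ho
    have hlen' : (X.erase t).length = X.length - 1 := List.length_erase_of_mem ht
    have hodd : Odd (X.erase t).length := by
      rw [hlen']
      obtain ⟨m, hm⟩ := hev
      exact ⟨m - 1, by omega⟩
    have hgen' : Gen (X.erase t ++ B ++ [g]) := by
      apply hgen.subperm
      apply List.Sublist.subperm
      exact (((List.erase_sublist).append_right B).append_right [g])
    have hih := (ih (X.erase t) B g (by omega) hgen').1 hodd s hs0
    have hgs : Gen (s :: X.erase t) := (hgX.perm hperm).flip hs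
    rw [← hP _ hso, ← hQ _ hso, hF.permX' X _ (s / om) B g hperm hgX hnzB hso hg,
      hG.permX' X _ (s / om) B g hperm hgX hnzB hso hg]
    rcases hs with rfl | rfl
    · rw [hF.E2 s _ B g hodd hgs hnzB hg, hG.E2 s _ B g hodd hgs hnzB hg, hih]
    · rw [← hF.evX' t _ _ B g ht0 hnz' hnzB hso hg, ← hG.evX' t _ _ B g ht0 hnz' hnzB hso hg,
        hF.E2 _ _ B g hodd hgs hnzB hg, hG.E2 _ _ B g hodd hgs hnzB hg, hih]
  have hPQ : P = Q := by
    apply poly_eq hPd hQd _ (cnodes_nodup hom hgX)
    · rw [hlenl]; omega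
    · intro y hy
      rw [List.mem_flatMap] at hy
      obtain ⟨t, ht, hy⟩ := hy
      simp only [List.mem_cons, List.not_mem_nil, or_false] at hy
      rcases hy with rfl | rfl
      · have : c (om * t) = c (t⁻¹ / om) := by
          rw [← c_inv]
          congr 1
          field_simp
        rw [this]
        exact key t ht _ (Or.inr rfl)
      · exact key t ht _ (Or.inl rfl)
  rw [hP v hv, hQ v hv, hPQ]

/-- values at the corner nodes coming from `B` -/
theorem value_B (hF : Facts om No Ne) (hG : Facts om No' Ne') {N : ℕ}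
    (ih : Agree No Ne No' Ne' N) (X B : List ℂ) (g : ℂ) (hlen : X.length + B.length ≤ N + 1)
    (hodd : Odd X.length) (hgen : Gen (X ++ B ++ [g])) (t : ℂ) (ht : t ∈ B) (s : ℂ)
    (hs : s = t ∨ s = t⁻¹) : No X (s / om) B g = No' X (s / om) B g := by
  classical
  have ho := om_ne hom
  have hnzX : NZ X := fun t ht => hgen.nz t (by simp [ht])
  have hnzB : NZ B := fun t ht => hgen.nz t (by simp [ht])
  have hg : g ≠ 0 := hgen.nz g (by simp)
  have ht0 := hnzB t ht
  have hs0 : s ≠ 0 := by
    rcases hs with rfl | rfl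
    · exact ht0
    · exact inv_ne_zero ht0
  have hperm : B.Perm (t :: B.erase t) := List.perm_cons_erase ht
  have hnz' : NZ (B.erase t) := fun u hu => hnzB u (List.mem_of_mem_erase hu)
  have hso : s / om ≠ 0 := div_ne_zero hs0 ho
  have hlen' : (B.erase t).length = B.length - 1 := List.length_erase_of_mem ht
  have hB0 : 0 < B.length := List.length_pos_of_mem ht
  have hgen' : Gen (X ++ B.erase t ++ [g]) := by
    apply hgen.subperm
    apply List.Sublist.subperm
    exact (((List.erase_sublist).append_left X).append_right [g])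
  have hih := (ih X (B.erase t) g (by omega) hgen').1 hodd s⁻¹ (inv_ne_zero hs0)
  have hgB : Gen B := hgen.subperm (by
    apply List.Sublist.subperm
    exact (List.sublist_append_right X B).trans (List.sublist_append_left _ _))
  rw [hF.permB X (s / om) B _ g hperm hnzX hgB hso hg,
    hG.permB X (s / om) B _ g hperm hnzX hgB hso hg]
  rcases hs with rfl | rfl
  · rw [hF.E3 X s _ g hodd hs0 hnzX hnz' hg, hG.E3 X s _ g hodd hs0 hnzX hnz' hg, hih]
  · rw [← hF.evB X _ t _ g ht0 hnzX hnz' hso hg, ← hG.evB X _ t _ g ht0 hnzX hnz' hso hg,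
      hF.E3 X _ _ g hodd hs0 hnzX hnz' hg, hG.E3 X _ _ g hodd hs0 hnzX hnz' hg, hih]

/-- values at the corner nodes coming from `X` -/
theorem value_X (hF : Facts om No Ne) (hG : Facts om No' Ne') {N : ℕ}
    (ih : Agree No Ne No' Ne' N) (X B : List ℂ) (g : ℂ) (hlen : X.length + B.length ≤ N + 1)
    (hodd : Odd X.length) (hgen : Gen (X ++ B ++ [g])) (t : ℂ) (ht : t ∈ X) (s : ℂ)
    (hs : s = t ∨ s = t⁻¹) : No X (om * s) B g = No' X (om * s) B g := by
  classical
  have ho := om_ne hom
  have hnzX : NZ X := fun t ht => hgen.nz t (by simp [ht])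
  have hnzB : NZ B := fun t ht => hgen.nz t (by simp [ht])
  have hg : g ≠ 0 := hgen.nz g (by simp)
  have ht0 := hnzX t ht
  have hs0 : s ≠ 0 := by
    rcases hs with rfl | rfl
    · exact ht0
    · exact inv_ne_zero ht0
  have hperm : X.Perm (t :: X.erase t) := List.perm_cons_erase ht
  have hnz' : NZ (X.erase t) := fun u hu => hnzX u (List.mem_of_mem_erase hu)
  have hso : om * s ≠ 0 := mul_ne_zero ho hs0
  have hlen' : (X.erase t).length = X.length - 1 := List.length_erase_of_mem ht
  have hX0 : 0 < X.length := List.length_pos_of_mem ht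
  have hev : Even (X.erase t).length := by
    rw [hlen']
    obtain ⟨m, hm⟩ := hodd
    exact ⟨m, by omega⟩
  have hgen' : Gen (X.erase t ++ B ++ [g]) := by
    apply hgen.subperm
    apply List.Sublist.subperm
    exact (((List.erase_sublist).append_right B).append_right [g])
  have hih := (ih (X.erase t) B g (by omega) hgen').2 hev s hs0
  have hgX : Gen X := hgen.subperm (by
    rw [List.append_assoc]; exact (List.sublist_append_left _ _).subperm)
  have hgs : Gen (s :: X.erase t) := (hgX.perm hperm).flip hs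
  rw [hF.permX X _ (om * s) B g hperm hgX hnzB hso hg,
    hG.permX X _ (om * s) B g hperm hgX hnzB hso hg]
  rcases hs with rfl | rfl
  · rw [hF.E1 s _ B g hev hgs hnzB hg, hG.E1 s _ B g hev hgs hnzB hg, hih]
  · rw [← hF.evX t _ _ B g ht0 hnz' hnzB hso hg, ← hG.evX t _ _ B g ht0 hnz' hnzB hso hg,
      hF.E1 _ _ B g hev hgs hnzB hg, hG.E1 _ _ B g hev hgs hnzB hg, hih]

theorem step_odd_big (hF : Facts om No Ne) (hG : Facts om No' Ne') {N : ℕ}
    (ih : Agree No Ne No' Ne' N) (X B : List ℂ) (g : ℂ) (hlen : X.length + B.length ≤ N + 1)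
    (hodd : Odd X.length) (h2 : 2 ≤ X.length) (hgen : Gen (X ++ B ++ [g])) (a : ℂ) (ha : a ≠ 0) :
    No X a B g = No' X a B g := by
  have ho := om_ne hom
  have hnzX : NZ X := fun t ht => hgen.nz t (by simp [ht])
  have hnzB : NZ B := fun t ht => hgen.nz t (by simp [ht])
  have hg : g ≠ 0 := hgen.nz g (by simp)
  obtain ⟨P, hPd, hP⟩ := hF.degA X B g hodd hnzX hnzB hg
  obtain ⟨Q, hQd, hQ⟩ := hG.degA X B g hodd hnzX hnzB hg
  have hgXB : Gen (X ++ B) := hgen.subperm (List.sublist_append_left _ _).subperm
  have hPQ : P = Q := by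
    apply poly_eq hPd hQd _ (anodes_nodup hom hgXB)
    · rw [List.length_append, List.length_flatMap, List.length_flatMap]
      simp
      omega
    · intro y hy
      rw [List.mem_append, List.mem_flatMap, List.mem_flatMap] at hy
      rcases hy with ⟨t, ht, hy⟩ | ⟨t, ht, hy⟩
      · have ht0 := hnzX t ht
        obtain ⟨s, hs, rfl⟩ : ∃ s, (s = t ∨ s = t⁻¹) ∧ y = om * s := by
          simp only [List.mem_cons, List.not_mem_nil, or_false] at hy
          rcases hy with rfl | rfl
          · exact ⟨t, Or.inl rfl, rfl⟩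
          · exact ⟨t⁻¹, Or.inr rfl, rfl⟩
        have hs0 : s ≠ 0 := by
          rcases hs with rfl | rfl
          · exact ht0
          · exact inv_ne_zero ht0
        rw [← hP _ (mul_ne_zero ho hs0), ← hQ _ (mul_ne_zero ho hs0),
          value_X hom hF hG ih X B g hlen hodd hgen t ht s hs]
      · have ht0 := hnzB t ht
        obtain ⟨s, hs, rfl⟩ : ∃ s, (s = t ∨ s = t⁻¹) ∧ y = s / om := by
          simp only [List.mem_cons, List.not_mem_nil, or_false] at hy
          rcases hy with rfl | rfl
          · exact ⟨t, Or.inl rfl, rfl⟩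
          · exact ⟨t⁻¹, Or.inr rfl, rfl⟩
        have hs0 : s ≠ 0 := by
          rcases hs with rfl | rfl
          · exact ht0
          · exact inv_ne_zero ht0
        rw [← hP _ (div_ne_zero hs0 ho), ← hQ _ (div_ne_zero hs0 ho),
          value_B hom hF hG ih X B g hlen hodd hgen t ht s hs]
  have h1 := hP a ha
  have h3 := hQ a ha
  rw [hPQ, ← h3] at h1
  exact mul_left_cancel₀ (pow_ne_zero _ ha) h1

/-- one common line, at least two pairs -/
theorem step_one_many (hF : Facts om No Ne) (hG : Facts om No' Ne') {N : ℕ}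
    (ih : Agree No Ne No' Ne' N) (x : ℂ) (B : List ℂ) (g : ℂ) (hlen : 1 + B.length ≤ N + 1)
    (hB2 : 2 ≤ B.length) (hgen : Gen ([x] ++ B ++ [g])) (a : ℂ) (ha : a ≠ 0) :
    No [x] a B g = No' [x] a B g := by
  classical
  have ho := om_ne hom
  have hx0 : x ≠ 0 := hgen.nz x (by simp)
  have hnzX : NZ [x] := fun t ht => hgen.nz t (by simp [List.mem_singleton.1 ht])
  have hnzB : NZ B := fun t ht => hgen.nz t (by simp [ht])
  have hg : g ≠ 0 := hgen.nz g (by simp)
  obtain ⟨P, hPd, hP⟩ := hF.degG x a B hx0 hnzB ha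
  obtain ⟨Q, hQd, hQ⟩ := hG.degG x a B hx0 hnzB ha
  have hgB : Gen B := hgen.subperm (by
    apply List.Sublist.subperm
    exact (List.sublist_append_right [x] B).trans (List.sublist_append_left _ _))
  have hlenl : (B.flatMap fun t => [c (om * t), c (t / om)]).length = 2 * B.length := by
    rw [List.length_flatMap]
    simp [mul_comm]
  have key : ∀ t ∈ B, ∀ s, s = t ∨ s = t⁻¹ → P.eval (c (om * s)) = Q.eval (c (om * s)) := by
    intro t ht s hs
    have ht0 := hnzB t ht
    have hs0 : s ≠ 0 := by
      rcases hs with rfl | rfl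
      · exact ht0
      · exact inv_ne_zero ht0
    have hperm : B.Perm (t :: B.erase t) := List.perm_cons_erase ht
    have hnz' : NZ (B.erase t) := fun u hu => hnzB u (List.mem_of_mem_erase hu)
    have hso : om * s ≠ 0 := mul_ne_zero ho hs0
    have hlen' : (B.erase t).length = B.length - 1 := List.length_erase_of_mem ht
    have hgen' : Gen ([x] ++ B.erase t ++ [t]) := by
      apply hgen.subperm
      have h1 : ([x] ++ B.erase t ++ [t]).Perm ([x] ++ B) := by
        rw [List.append_assoc]
        apply List.Perm.append_left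
        exact (List.perm_append_singleton t (B.erase t)).trans hperm.symm
      exact h1.subperm.trans (List.sublist_append_left _ _).subperm
    have hih := (ih [x] (B.erase t) t (by simp; omega) hgen').1 (by simp) a ha
    have hgs : Gen (s :: B.erase t) := (hgB.perm hperm).flip hs
    rw [← hP _ hso, ← hQ _ hso, hF.permB [x] a B _ _ hperm hnzX hgB ha hso,
      hG.permB [x] a B _ _ hperm hnzX hgB ha hso]
    rcases hs with rfl | rfl
    · rw [hF.E4 x a s _ hx0 ha hgs, hG.E4 x a s _ hx0 ha hgs, hih]
    · rw [← hF.evB [x] a t _ _ ht0 hnzX hnz' ha hso, ← hG.evB [x] a t _ _ ht0 hnzX hnz' ha hso,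
        hF.E4 x a _ _ hx0 ha hgs, hG.E4 x a _ _ hx0 ha hgs,
        hF.evg [x] a _ t hnzX hnz' ha ht0, hG.evg [x] a _ t hnzX hnz' ha ht0, hih]
  have hPQ : P = Q := by
    apply poly_eq hPd hQd _ (cnodes_nodup hom hgB)
    · rw [hlenl]; omega
    · intro y hy
      rw [List.mem_flatMap] at hy
      obtain ⟨t, ht, hy⟩ := hy
      simp only [List.mem_cons, List.not_mem_nil, or_false] at hy
      rcases hy with rfl | rfl
      · exact key t ht _ (Or.inl rfl)
      · have : c (t / om) = c (om * t⁻¹) := by
          rw [← c_inv]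
          congr 1
          field_simp
        rw [this]
        exact key t ht _ (Or.inr rfl)
  rw [hP g hg, hQ g hg, hPQ]

omit hom in
theorem finite_tau (s : ℂ) : {a : ℂ | a ≠ 0 ∧ tau a = s}.Finite := by
  have hp : (Polynomial.X ^ 6 - Polynomial.C s * Polynomial.X ^ 3 + 1 : Polynomial ℂ) ≠ 0 := by
    intro h
    have := congrArg (Polynomial.eval 0) h
    simp at this
  refine ((Polynomial.X ^ 6 - Polynomial.C s * Polynomial.X ^ 3 + 1 :
    Polynomial ℂ).roots.toFinset.finite_toSet).subset ?_
  rintro a ⟨ha, h⟩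
  simp only [Finset.mem_coe, Multiset.mem_toFinset, Polynomial.mem_roots hp, Polynomial.IsRoot.def]
  simp only [Polynomial.eval_add, Polynomial.eval_sub, Polynomial.eval_mul, Polynomial.eval_pow,
    Polynomial.eval_X, Polynomial.eval_C, Polynomial.eval_one]
  rw [← h]
  unfold tau
  field_simp
  ring

/-- one common line and one pair, for generic corner line -/
theorem one_one_generic (hF : Facts om No Ne) (hG : Facts om No' Ne')
    (x g a b : ℂ) (hx0 : x ≠ 0) (hg : g ≠ 0) (ha : a ≠ 0) (hb : b ≠ 0)
    (hg2 : tau g ≠ 2) (hg2' : tau g ≠ -2) (ha2 : tau a ≠ 2) (ha2' : tau a ≠ -2)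
    (hag : tau a ≠ tau g) : No [x] a [b] g = No' [x] a [b] g := by
  have ho := om_ne hom
  have h3 := om3 hom
  have hnzX : NZ [x] := fun t ht => by rw [List.mem_singleton.1 ht]; exact hx0
  have hnz0 : NZ [] := fun t ht => by simp at ht
  obtain ⟨P, hPd, hP⟩ := hF.degB x a g hx0 ha hg
  obtain ⟨Q, hQd, hQ⟩ := hG.degB x a g hx0 ha hg
  have hbase : ∀ a', a' ≠ 0 → ∀ g', g' ≠ 0 → No [x] a' [] g' = No' [x] a' [] g' := fun a' ha' g' hg' => by
    rw [hF.base x a' g' hx0 ha' hg', hG.base x a' g' hx0 ha' hg']
  have htom : tau om = 2 := by unfold tau; rw [h3]; norm_num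
  have htom' : tau (-om) = -2 := by
    unfold tau
    rw [neg_pow, h3]
    norm_num
  have hPQ : P = Q := by
    apply poly_eq hPd hQd [c (om * g), c (g / om), c (om * a), c om, c (-om)]
    · have e1 : c (om * g) ≠ c (g / om) := c_om_ne hom hg hg2 hg2'
      have hog : om * g ≠ 0 := mul_ne_zero ho hg
      have hgo : g / om ≠ 0 := div_ne_zero hg ho
      have hoa : om * a ≠ 0 := mul_ne_zero ho ha
      have ho' : -om ≠ 0 := neg_ne_zero.2 ho
      have e2 : c (om * g) ≠ c (om * a) := fun h => hag (by
        have := tau_of_c hog hoa h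
        rw [tau_om hom, tau_om hom] at this
        exact this.symm)
      have e3 : c (om * g) ≠ c om := fun h => hg2 (by
        have := tau_of_c hog ho h
        rw [tau_om hom, htom] at this
        exact this)
      have e4 : c (om * g) ≠ c (-om) := fun h => hg2' (by
        have := tau_of_c hog ho' h
        rw [tau_om hom, htom'] at this
        exact this)
      have e5 : c (g / om) ≠ c (om * a) := fun h => hag (by
        have := tau_of_c hgo hoa h
        rw [tau_div_om hom, tau_om hom] at this
        exact this.symm)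
      have e6 : c (g / om) ≠ c om := fun h => hg2 (by
        have := tau_of_c hgo ho h
        rw [tau_div_om hom, htom] at this
        exact this)
      have e7 : c (g / om) ≠ c (-om) := fun h => hg2' (by
        have := tau_of_c hgo ho' h
        rw [tau_div_om hom, htom'] at this
        exact this)
      have e8 : c (om * a) ≠ c om := fun h => ha2 (by
        have := tau_of_c hoa ho h
        rw [tau_om hom, htom] at this
        exact this)
      have e9 : c (om * a) ≠ c (-om) := fun h => ha2' (by
        have := tau_of_c hoa ho' h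
        rw [tau_om hom, htom'] at this
        exact this)
      have e10 : c om ≠ c (-om) := fun h => by
        have := tau_of_c ho ho' h
        rw [htom, htom'] at this
        norm_num at this
      simp only [List.nodup_cons, List.mem_cons, List.not_mem_nil, or_false, not_or]
      exact ⟨⟨e1, e2, e3, e4⟩, ⟨e5, e6, e7⟩, ⟨e8, e9⟩, e10, not_false, List.nodup_nil⟩
    · simp
    · intro y hy
      simp only [List.mem_cons, List.not_mem_nil, or_false] at hy
      rcases hy with rfl | rfl | rfl | rfl | rfl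
      · have h0 : om * g ≠ 0 := mul_ne_zero ho hg
        have h1 : om * (om * g)⁻¹ = g⁻¹ := by field_simp
        have hgen1 : Gen [(om * g)⁻¹] := by
          refine ⟨?_, by simp⟩
          intro t ht
          rw [List.mem_singleton.1 ht, tau_inv, tau_om hom]
          exact ⟨inv_ne_zero h0, hg2, hg2'⟩
        rw [← hP _ h0, ← hQ _ h0, ← hF.evB [x] a _ [] g h0 hnzX hnz0 ha hg,
          ← hG.evB [x] a _ [] g h0 hnzX hnz0 ha hg]
        have h2 : NZ [(om * g)⁻¹] := fun t ht => by
          rw [List.mem_singleton.1 ht]; exact inv_ne_zero h0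
        rw [← hF.evg [x] a _ g hnzX h2 ha hg, ← hG.evg [x] a _ g hnzX h2 ha hg, ← h1,
          hF.E4 x a _ [] hx0 ha hgen1, hG.E4 x a _ [] hx0 ha hgen1,
          hbase a ha _ (inv_ne_zero h0)]
      · have h0 : g / om ≠ 0 := div_ne_zero hg ho
        have h1 : om * (g / om) = g := by field_simp
        have hgen1 : Gen [g / om] := by
          refine ⟨?_, by simp⟩
          intro t ht
          rw [List.mem_singleton.1 ht, tau_div_om hom]
          exact ⟨h0, hg2, hg2'⟩
        have e1 := hF.E4 x a (g / om) [] hx0 ha hgen1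
        have e2 := hG.E4 x a (g / om) [] hx0 ha hgen1
        rw [h1] at e1 e2
        rw [← hP _ h0, ← hQ _ h0, e1, e2, hbase a ha _ h0]
      · have h0 : om * a ≠ 0 := mul_ne_zero ho ha
        have h1 : om * a / om = a := by field_simp
        have e1 := hF.E3 [x] (om * a) [] g (by simp) h0 hnzX hnz0 hg
        have e2 := hG.E3 [x] (om * a) [] g (by simp) h0 hnzX hnz0 hg
        rw [h1] at e1 e2
        rw [← hP _ h0, ← hQ _ h0, e1, e2, hbase _ (inv_ne_zero h0) _ hg]
      · rw [← hP _ ho, ← hQ _ ho, hF.E5 x a g om (Or.inl rfl) hx0 ha hg,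
          hG.E5 x a g om (Or.inl rfl) hx0 ha hg, hbase a ha g hg]
      · have ho' : -om ≠ 0 := neg_ne_zero.2 ho
        rw [← hP _ ho', ← hQ _ ho', hF.E5 x a g (-om) (Or.inr rfl) hx0 ha hg,
          hG.E5 x a g (-om) (Or.inr rfl) hx0 ha hg, hbase a ha g hg]
  rw [hP b hb, hQ b hb, hPQ]

theorem step_one_one (hF : Facts om No Ne) (hG : Facts om No' Ne')
    (x b g : ℂ) (hgen : Gen ([x] ++ [b] ++ [g])) (a : ℂ) (ha : a ≠ 0) :
    No [x] a [b] g = No' [x] a [b] g := by
  have hx0 : x ≠ 0 := hgen.nz x (by simp)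
  have hb0 : b ≠ 0 := hgen.nz b (by simp)
  obtain ⟨hg0, hg2, hg2'⟩ := hgen.1 g (by simp)
  have hnzX : NZ [x] := fun t ht => by rw [List.mem_singleton.1 ht]; exact hx0
  have hnzB : NZ [b] := fun t ht => by rw [List.mem_singleton.1 ht]; exact hb0
  obtain ⟨P, hPd, hP⟩ := hF.degA [x] [b] g (by simp) hnzX hnzB hg0
  obtain ⟨Q, hQd, hQ⟩ := hG.degA [x] [b] g (by simp) hnzX hnzB hg0
  have hfin : ({0} ∪ ({a : ℂ | a ≠ 0 ∧ tau a = tau g} ∪ ({a : ℂ | a ≠ 0 ∧ tau a = 2} ∪
      {a : ℂ | a ≠ 0 ∧ tau a = -2})) : Set ℂ).Finite :=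
    (Set.finite_singleton 0).union ((finite_tau _).union ((finite_tau _).union (finite_tau _)))
  have hinf := hfin.infinite_compl
  have hPQ : P = Q := by
    apply Polynomial.eq_of_infinite_eval_eq
    refine hinf.mono ?_
    intro u hu
    simp only [Set.mem_compl_iff, Set.mem_union, Set.mem_singleton_iff, Set.mem_ofPred_eq,
      not_or, not_and] at hu
    obtain ⟨hu0, h1, h2, h3⟩ := hu
    simp only [Set.mem_ofPred_eq]
    rw [← hP u hu0, ← hQ u hu0, one_one_generic hom hF hG x g u b hx0 hg0 hu0 hb0 hg2 hg2'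
      (h2 hu0) (h3 hu0) (h1 hu0)]
  have h1 := hP a ha
  have h3 := hQ a ha
  rw [hPQ, ← h3] at h1
  exact mul_left_cancel₀ (pow_ne_zero _ ha) h1

/-- no common lines: induction on the number of pairs -/
theorem closure_agree (hF : Facts om No Ne) (hG : Facts om No' Ne') (v : ℂ) (hv : v ≠ 0) (N : ℕ) :
    ∀ (B : List ℂ) (g : ℂ), B.length ≤ N → Gen (B ++ [g]) → Ne [] v B g = Ne' [] v B g := by
  classical
  have ho := om_ne hom
  induction N with
  | zero =>
    intro B g hlen hgen
    have hB : B = [] := List.eq_nil_of_length_eq_zero (by omega)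
    subst hB
    have hg : g ≠ 0 := hgen.nz g (by simp)
    rw [hF.base' v g hv hg, hG.base' v g hv hg]
  | succ N ih =>
    intro B g hlen hgen
    by_cases hB : B = []
    · subst hB
      have hg : g ≠ 0 := hgen.nz g (by simp)
      rw [hF.base' v g hv hg, hG.base' v g hv hg]
    have hB0 : 0 < B.length := List.length_pos_of_ne_nil hB
    have hnzB : NZ B := fun t ht => hgen.nz t (by simp [ht])
    have hg : g ≠ 0 := hgen.nz g (by simp)
    obtain ⟨P, hPd, hP⟩ := hF.degG' v B hnzB hv
    obtain ⟨Q, hQd, hQ⟩ := hG.degG' v B hnzB hv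
    have hgB : Gen B := hgen.subperm (List.sublist_append_left _ _).subperm
    have hlenl : (B.flatMap fun t => [c (om * t), c (t / om)]).length = 2 * B.length := by
      rw [List.length_flatMap]
      simp [mul_comm]
    have key : ∀ t ∈ B, ∀ s, s = t ∨ s = t⁻¹ → P.eval (c (om * s)) = Q.eval (c (om * s)) := by
      intro t ht s hs
      have ht0 := hnzB t ht
      have hs0 : s ≠ 0 := by
        rcases hs with rfl | rfl
        · exact ht0
        · exact inv_ne_zero ht0
      have hperm : B.Perm (t :: B.erase t) := List.perm_cons_erase ht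
      have hnz' : NZ (B.erase t) := fun u hu => hnzB u (List.mem_of_mem_erase hu)
      have hso : om * s ≠ 0 := mul_ne_zero ho hs0
      have hlen' : (B.erase t).length = B.length - 1 := List.length_erase_of_mem ht
      have hgen' : Gen (B.erase t ++ [t]) :=
        hgB.perm ((List.perm_append_singleton t (B.erase t)).trans hperm.symm).symm
      have hih := ih (B.erase t) t (by omega) hgen'
      have hgs : Gen (s :: B.erase t) := (hgB.perm hperm).flip hs
      rw [← hP _ hso, ← hQ _ hso, hF.permB' v B _ _ hperm hgB hv hso,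
        hG.permB' v B _ _ hperm hgB hv hso]
      rcases hs with rfl | rfl
      · rw [hF.E4' v s _ hv hgs, hG.E4' v s _ hv hgs, hih]
      · rw [← hF.evB' v t _ _ ht0 hnz' hv hso, ← hG.evB' v t _ _ ht0 hnz' hv hso,
          hF.E4' v _ _ hv hgs, hG.E4' v _ _ hv hgs, hF.evg' v _ t hnz' hv ht0,
          hG.evg' v _ t hnz' hv ht0, hih]
    have hPQ : P = Q := by
      apply poly_eq hPd hQd _ (cnodes_nodup hom hgB)
      · rw [hlenl]; omega
      · intro y hy
        rw [List.mem_flatMap] at hy
        obtain ⟨t, ht, hy⟩ := hy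
        simp only [List.mem_cons, List.not_mem_nil, or_false] at hy
        rcases hy with rfl | rfl
        · exact key t ht _ (Or.inl rfl)
        · have : c (t / om) = c (om * t⁻¹) := by
            rw [← c_inv]
            congr 1
            field_simp
          rw [this]
          exact key t ht _ (Or.inr rfl)
    rw [hP g hg, hQ g hg, hPQ]

/-- **Uniqueness**: two families satisfying the same recursions and degree bounds agree at all
generic parameters. -/
theorem facts_agree (hF : Facts om No Ne) (hG : Facts om No' Ne') (N : ℕ) :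
    Agree No Ne No' Ne' N := by
  have heven0 : ∀ B g, Gen ([] ++ B ++ [g]) → ∀ v, v ≠ 0 → Ne [] v B g = Ne' [] v B g := by
    intro B g hgen v hv
    exact closure_agree hom hF hG v hv _ B g le_rfl hgen
  induction N with
  | zero =>
    intro X B g hlen hgen
    have hX : X = [] := List.eq_nil_of_length_eq_zero (by omega)
    subst hX
    exact ⟨fun h => by simp at h, fun _ v hv => heven0 B g hgen v hv⟩
  | succ N ih =>
    intro X B g hlen hgen
    refine ⟨fun hodd a ha => ?_, fun hev v hv => ?_⟩
    · by_cases h2 : 2 ≤ X.length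
      · exact step_odd_big hom hF hG ih X B g hlen hodd h2 hgen a ha
      · have h1 : X.length = 1 := by
          obtain ⟨m, hm⟩ := hodd
          omega
        obtain ⟨x, rfl⟩ := List.length_eq_one_iff.1 h1
        have hx0 : x ≠ 0 := hgen.nz x (by simp)
        have hg : g ≠ 0 := hgen.nz g (by simp)
        rcases B with _ | ⟨b, B⟩
        · rw [hF.base x a g hx0 ha hg, hG.base x a g hx0 ha hg]
        · rcases B with _ | ⟨b', B⟩
          · exact step_one_one hom hF hG x b g hgen a ha
          · exact step_one_many hom hF hG ih x _ g (by simpa [add_comm, add_left_comm] using hlen)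
              (by simp) hgen a ha
    · by_cases hX : X = []
      · subst hX
        exact heven0 B g hgen v hv
      · exact step_even hom hF hG ih X B g hlen hX hev hgen v hv

theorem facts_unique_odd (hF : Facts om No Ne) (hG : Facts om No' Ne') (X : List ℂ)
    (a : ℂ) (B : List ℂ) (g : ℂ) (hodd : Odd X.length) (ha : a ≠ 0)
    (hgen : Gen (X ++ B ++ [g])) : No X a B g = No' X a B g :=
  (facts_agree hom hF hG _ X B g le_rfl hgen).1 hodd a ha

theorem facts_unique_even (hF : Facts om No Ne) (hG : Facts om No' Ne') (X : List ℂ)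
    (v : ℂ) (B : List ℂ) (g : ℂ) (hev : Even X.length) (hv : v ≠ 0)
    (hgen : Gen (X ++ B ++ [g])) : Ne X v B g = Ne' X v B g :=
  (facts_agree hom hF hG _ X B g le_rfl hgen).2 hev v hv

end main

end Pool.Agent.H1.LStrip
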